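import Pool.Agent.Y103.Fj.Polar

/-!
# Algebras with a Fujiki relation
-/

open MvPolynomial Finset

namespace Pool.Agent.Y103.Fj

variable {F : Type*} [Field F] [LinearOrder F] [IsStrictOrderedRing F] {K : Type*} [Field K]
  [Algebra F K] {A : Type*} [CommRing A] [Algebra K A] [Algebra F A] [IsScalarTower F K A]
  {σ : Type*} [Fintype σ]

/-- The elements `e i` of the algebra `A` satisfy the Fujiki relation for the functional `tr`, the
exponent `2 n` and the diagonal quadratic form with the coefficients `κ`, positive at `o` and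
negative elsewhere. -/
structure IsFujiki (n : ℕ) (tr : A →ₗ[K] K) (e : σ → A) (o : σ) (κ : σ → F) (c : F) : Prop where
  pos : 0 < κ o
  neg : ∀ i, i ≠ o → κ i < 0
  cpos : 0 < c
  rel : ∀ t : σ → F, tr ((∑ i, t i • e i) ^ (2 * n)) =
    algebraMap F K (c * (∑ i, κ i * t i ^ 2) ^ n)

lemma mom_one_pos (n : ℕ) : 0 < mom (1 : F) (2 * n) := by
  induction n with
  | zero => rw [mul_zero, mom]; exact one_pos
  | succ n ih =>
    rw [show 2 * (n + 1) = 2 * n + 2 by ring, mom]
    positivity

namespace IsFujiki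

variable {n : ℕ} {tr : A →ₗ[K] K} {e : σ → A} {o : σ} {κ : σ → F} {c : F}
  (H : IsFujiki n tr e o κ c)

omit [LinearOrder F] [IsStrictOrderedRing F] [Algebra K A] [IsScalarTower F K A] [Algebra F K]
  [Field K] in
lemma aeval_lin (t : σ → F) : aeval e (lin t) = ∑ i, t i • e i := by
  rw [lin, map_sum]
  apply sum_congr rfl
  intro i _
  rw [map_mul, aeval_X, aeval_C, Algebra.smul_def]

include H

/-- The functional is a multiple of the Gaussian functional. -/
theorem tr_eq {f : MvPolynomial σ F} (hf : Hom (2 * n) f) :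
    tr (aeval e f) = algebraMap F K (c / mom 1 (2 * n) * gs κ f) := by
  classical
  set Φ : MvPolynomial σ F →ₗ[F] K := (tr.restrictScalars F) ∘ₗ (aeval e).toLinearMap -
    (Algebra.linearMap F K) ∘ₗ ((c / mom 1 (2 * n)) • gs κ) with hΦ
  have h1 : Φ f = 0 := by
    apply polar Φ _ hf
    intro t
    rw [hΦ, LinearMap.sub_apply, LinearMap.comp_apply, LinearMap.comp_apply,
      AlgHom.toLinearMap_apply, map_pow, aeval_lin, LinearMap.restrictScalars_apply, H.rel,
      LinearMap.smul_apply, gs_lin_even, Algebra.linearMap_apply, ← map_sub, smul_eq_mul]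
    have h2 : c * (∑ i, κ i * t i ^ 2) ^ n -
        c / mom 1 (2 * n) * (mom 1 (2 * n) * (∑ i, κ i * t i ^ 2) ^ n) = 0 := by
      have h3 := (mom_one_pos (F := F) n).ne'
      field_simp
      ring
    rw [h2, map_zero]
  rw [hΦ, LinearMap.sub_apply, sub_eq_zero] at h1
  exact h1

/-- The matrix of the form on monomials. -/
noncomputable def _root_.Pool.Agent.Y103.Fj.gram (n : ℕ) (o : σ) (κ : σ → F) (j : ℕ) :
    Matrix {α : σ →₀ ℕ // ∑ i, α i = j} {α : σ →₀ ℕ // ∑ i, α i = j} F :=
  fun α β => gs κ (monomial α.1 1 * monomial β.1 1 * X o ^ (2 * n - 2 * j))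

end IsFujiki

lemma finite_deg (j : ℕ) : Finite {α : σ →₀ ℕ // ∑ i, α i = j} := by
  classical
  have h : {α : σ →₀ ℕ | ∑ i, α i = j} ⊆ ((Finset.univ : Finset σ).finsuppAntidiag j :
      Set (σ →₀ ℕ)) := by
    intro α hα
    rw [Finset.mem_coe, Finset.mem_finsuppAntidiag]
    exact ⟨hα, Finset.subset_univ _⟩
  exact (Set.Finite.subset (Finset.finite_toSet _) h).to_subtype

section Elt

variable {j : ℕ} [Fintype {α : σ →₀ ℕ // ∑ i, α i = j}]

/-- The polynomial with given coefficients. -/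
noncomputable def poly (a : {α : σ →₀ ℕ // ∑ i, α i = j} → F) : MvPolynomial σ F :=
  ∑ α, monomial α.1 (a α)

omit [LinearOrder F] [IsStrictOrderedRing F] in
lemma coeff_poly (a : {α : σ →₀ ℕ // ∑ i, α i = j} → F) (β : {α : σ →₀ ℕ // ∑ i, α i = j}) :
    coeff β.1 (poly a) = a β := by
  classical
  rw [poly, coeff_sum, sum_eq_single β]
  · rw [coeff_monomial, if_pos rfl]
  · intro α _ hα
    rw [coeff_monomial, if_neg (fun h => hα (Subtype.ext h))]
  · intro h; exact absurd (mem_univ _) h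

omit [LinearOrder F] [IsStrictOrderedRing F] in
lemma hom_poly (a : {α : σ →₀ ℕ // ∑ i, α i = j} → F) : Hom j (poly a) := by
  classical
  intro α hα
  rw [poly, coeff_sum] at hα
  obtain ⟨β, _, hβ⟩ := exists_ne_zero_of_sum_ne_zero hα
  rw [coeff_monomial] at hβ
  by_cases h : β.1 = α
  · rw [← h]; exact β.2
  · rw [if_neg h] at hβ; exact absurd rfl hβ

omit [LinearOrder F] [IsStrictOrderedRing F] in
lemma eq_poly {f : MvPolynomial σ F} (hf : Hom j f) :
    f = poly (j := j) (fun α => coeff α.1 f) := by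
  classical
  ext β
  by_cases h : ∑ i, β i = j
  · exact (coeff_poly (fun α => coeff α.1 f) ⟨β, h⟩).symm
  · have h1 : coeff β f = 0 := by
      by_contra h0
      exact h (hf β h0)
    have h2 : coeff β (poly (fun α : {α : σ →₀ ℕ // ∑ i, α i = j} => coeff α.1 f)) = 0 := by
      by_contra h0
      exact h (hom_poly _ β h0)
    rw [h1, h2]

/-- The element with given coefficients. -/
noncomputable def elt (e : σ → A) (a : {α : σ →₀ ℕ // ∑ i, α i = j} → K) : A :=
  ∑ α, a α • (aeval e (monomial α.1 (1 : F)) : A)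

end Elt

omit [LinearOrder F] [IsStrictOrderedRing F] in
lemma hom_monomial {j : ℕ} (α : {α : σ →₀ ℕ // ∑ i, α i = j}) (a : F) :
    Hom j (monomial α.1 a) := by
  classical
  intro β hβ
  rw [coeff_monomial] at hβ
  by_cases h : α.1 = β
  · rw [← h]; exact α.2
  · rw [if_neg h] at hβ; exact absurd rfl hβ

omit [LinearOrder F] [IsStrictOrderedRing F] in
lemma hom_X_pow (o : σ) (r : ℕ) : Hom r ((X o : MvPolynomial σ F) ^ r) := (pure_X_pow r).hom

namespace IsFujiki

variable {n : ℕ} {tr : A →ₗ[K] K} {e : σ → A} {o : σ} {κ : σ → F} {c : F}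
  (H : IsFujiki n tr e o κ c) {j : ℕ}

include H

omit [IsScalarTower F K A] in
lemma det_ne [Fintype {α : σ →₀ ℕ // ∑ i, α i = j}]
    [DecidableEq {α : σ →₀ ℕ // ∑ i, α i = j}] (hj : j ≤ n) : (gram n o κ j).det ≠ 0 := by
  intro h0
  obtain ⟨v, hv, h⟩ := Matrix.exists_vecMul_eq_zero_iff.2 h0
  apply hv
  have h1 : poly v = 0 := by
    apply gs_nd H.pos H.neg hj (hom_poly v)
    intro g hg
    rw [eq_poly hg]
    rw [poly, poly, sum_mul_sum, sum_mul, map_sum]
    have h2 : ∀ β, ∑ α, v α * gram n o κ j α β = 0 := fun β => congrFun h β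
    have h3 : ∀ α β, gs κ (monomial α.1 (v α) * monomial β.1 (coeff β.1 g) *
        X o ^ (2 * n - 2 * j)) = coeff β.1 g * (v α * gram n o κ j α β) := by
      intro α β
      rw [gram, ← gs_C_mul, ← gs_C_mul]
      congr 1
      have e1 : monomial α.1 (v α) = C (v α) * monomial α.1 1 := by
        rw [C_mul_monomial, mul_one]
      have e2 : monomial β.1 (coeff β.1 g) = C (coeff β.1 g) * monomial β.1 1 := by
        rw [C_mul_monomial, mul_one]
      rw [e1, e2]
      ring
    simp only [sum_mul, map_sum, h3]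
    rw [sum_comm]
    apply sum_eq_zero
    intro β _
    rw [← mul_sum, h2, mul_zero]
  funext α
  rw [← coeff_poly v α, h1, coeff_zero, Pi.zero_apply]

lemma tr_elt [Fintype {α : σ →₀ ℕ // ∑ i, α i = j}] (hj : j ≤ n)
    (a : {α : σ →₀ ℕ // ∑ i, α i = j} → K) (β : {α : σ →₀ ℕ // ∑ i, α i = j}) :
    tr (elt (F := F) e a * aeval e (monomial β.1 (1 : F)) * e o ^ (2 * n - 2 * j)) =
      ∑ α, a α * algebraMap F K (c / mom 1 (2 * n) * gram n o κ j α β) := by
  rw [elt, sum_mul, sum_mul, map_sum]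
  apply sum_congr rfl
  intro α _
  rw [smul_mul_assoc, smul_mul_assoc, map_smul, smul_eq_mul]
  congr 1
  have h1 := H.tr_eq (f := monomial α.1 1 * monomial β.1 1 * X o ^ (2 * n - 2 * j)) (by
    have := ((hom_monomial α (1 : F)).mul (hom_monomial β (1 : F))).mul
      (hom_X_pow (F := F) o (2 * n - 2 * j))
    rwa [show j + j + (2 * n - 2 * j) = 2 * n by omega] at this)
  rw [map_mul (aeval e), map_mul (aeval e), map_pow (aeval e), aeval_X] at h1
  exact h1

omit H [LinearOrder F] [IsStrictOrderedRing F] in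
lemma exists_elt [Fintype {α : σ →₀ ℕ // ∑ i, α i = j}] {x : A}
    (hx : x ∈ Submodule.span K {y | ∃ f : MvPolynomial σ F, Hom j f ∧ y = aeval e f}) :
    ∃ a : {α : σ →₀ ℕ // ∑ i, α i = j} → K, x = elt (F := F) e a := by
  classical
  induction hx using Submodule.span_induction with
  | mem x hx =>
    obtain ⟨f, hf, rfl⟩ := hx
    refine ⟨fun α => algebraMap F K (coeff α.1 f), ?_⟩
    conv_lhs => rw [eq_poly hf]
    rw [poly, map_sum, elt]
    apply sum_congr rfl
    intro α _
    have e1 : monomial α.1 (coeff α.1 f) = (coeff α.1 f) • monomial α.1 (1 : F) := by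
      rw [smul_monomial, smul_eq_mul, mul_one]
    rw [e1, map_smul, algebraMap_smul]
  | zero => exact ⟨0, by simp [elt]⟩
  | add x y _ _ h1 h2 =>
    obtain ⟨a, rfl⟩ := h1
    obtain ⟨b, rfl⟩ := h2
    exact ⟨a + b, by simp [elt, add_smul, sum_add_distrib]⟩
  | smul s x _ h1 =>
    obtain ⟨a, rfl⟩ := h1
    exact ⟨s • a, by simp [elt, mul_smul, smul_sum]⟩

/-- An element of the span whose products are in `F` comes from a polynomial over `F`. -/
theorem rat (hj : j ≤ n) {x : A}
    (hx : x ∈ Submodule.span K {y | ∃ f : MvPolynomial σ F, Hom j f ∧ y = aeval e f})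
    (h : ∀ f : MvPolynomial σ F, Hom j f →
      ∃ r : F, tr (x * aeval e f * e o ^ (2 * n - 2 * j)) = algebraMap F K r) :
    ∃ f : MvPolynomial σ F, Hom j f ∧ x = aeval e f := by
  classical
  have := finite_deg (σ := σ) j
  have := Fintype.ofFinite {α : σ →₀ ℕ // ∑ i, α i = j}
  obtain ⟨a, rfl⟩ := exists_elt hx
  choose r hr using fun β : {α : σ →₀ ℕ // ∑ i, α i = j} =>
    h (monomial β.1 1) (hom_monomial β 1)
  have hC : c / mom 1 (2 * n) ≠ 0 := (div_pos H.cpos (mom_one_pos n)).ne'
  set G := gram n o κ j with hG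
  have hdet : G.det ≠ 0 := H.det_ne hj
  have h1 : ∀ β, ∑ α, a α * algebraMap F K (G α β) =
      algebraMap F K ((c / mom 1 (2 * n))⁻¹ * r β) := by
    intro β
    have h2 := H.tr_elt hj a β
    rw [hr β] at h2
    rw [map_mul, h2, mul_sum]
    apply sum_congr rfl
    intro α _
    rw [mul_left_comm, ← map_mul, ← mul_assoc, inv_mul_cancel₀ hC, one_mul]
  -- multiply with the inverse matrix
  have h3 : ∀ γ, a γ = algebraMap F K (∑ β, ((c / mom 1 (2 * n))⁻¹ * r β) * G⁻¹ β γ) := by
    intro γ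
    rw [map_sum]
    have h4 : ∀ β, algebraMap F K ((c / mom 1 (2 * n))⁻¹ * r β * G⁻¹ β γ) =
        ∑ α, a α * (algebraMap F K (G α β) * algebraMap F K (G⁻¹ β γ)) := by
      intro β
      rw [map_mul, ← h1, sum_mul]
      apply sum_congr rfl
      intro α _
      rw [mul_assoc]
    simp only [h4]
    rw [sum_comm]
    have h5 : ∀ α, ∑ β, a α * (algebraMap F K (G α β) * algebraMap F K (G⁻¹ β γ)) =
        a α * if α = γ then 1 else 0 := by
      intro α
      rw [← mul_sum]
      congr 1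
      have h6 : (G * G⁻¹) α γ = (1 : Matrix _ _ F) α γ := by
        rw [Matrix.mul_nonsing_inv _ (isUnit_iff_ne_zero.2 hdet)]
      rw [Matrix.mul_apply, Matrix.one_apply] at h6
      have h7 := congrArg (algebraMap F K) h6
      rw [map_sum] at h7
      simp only [map_mul] at h7
      rw [h7]
      split_ifs
      · rw [map_one]
      · rw [map_zero]
    simp only [h5]
    rw [sum_eq_single γ]
    · rw [if_pos rfl, mul_one]
    · intro α _ hα
      rw [if_neg hα, mul_zero]
    · intro h; exact absurd (mem_univ _) h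
  refine ⟨poly (fun γ => ∑ β, ((c / mom 1 (2 * n))⁻¹ * r β) * G⁻¹ β γ), hom_poly _, ?_⟩
  rw [elt, poly, map_sum]
  apply sum_congr rfl
  intro γ _
  have e1 : ∀ s : F, monomial γ.1 s = s • monomial γ.1 (1 : F) := fun s => by
    rw [smul_monomial, smul_eq_mul, mul_one]
  rw [h3 γ, algebraMap_smul, e1 (∑ β, _), map_smul]

/-- **Nondegeneracy.** -/
theorem nd (hj : j ≤ n) {x : A}
    (hx : x ∈ Submodule.span K {y | ∃ f : MvPolynomial σ F, Hom j f ∧ y = aeval e f})
    (h : ∀ f : MvPolynomial σ F, Hom j f → tr (x * aeval e f * e o ^ (2 * n - 2 * j)) = 0) :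
    x = 0 := by
  obtain ⟨f, hf, rfl⟩ := H.rat hj hx (fun f hf => ⟨0, by rw [h f hf, map_zero]⟩)
  have h1 : f = 0 := by
    apply gs_nd H.pos H.neg hj hf
    intro g hg
    have h2 := H.tr_eq (f := f * g * X o ^ (2 * n - 2 * j)) (by
      have := (hf.mul hg).mul (hom_X_pow (F := F) o (2 * n - 2 * j))
      rwa [show j + j + (2 * n - 2 * j) = 2 * n by omega] at this)
    rw [map_mul (aeval e), map_mul (aeval e), map_pow (aeval e), aeval_X, h g hg] at h2
    have h3 := (map_eq_zero_iff (algebraMap F K) (algebraMap F K).injective).1 h2.symm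
    exact (mul_eq_zero.1 h3).resolve_left (div_pos H.cpos (mom_one_pos n)).ne'
  rw [h1, map_zero]

/-- **Positivity on primitive elements.** -/
theorem prim_pos (hj : j ≤ n) {x : A}
    (hx : x ∈ Submodule.span K {y | ∃ f : MvPolynomial σ F, Hom j f ∧ y = aeval e f})
    (h : ∀ f : MvPolynomial σ F, Hom j f →
      ∃ r : F, tr (x * aeval e f * e o ^ (2 * n - 2 * j)) = algebraMap F K r)
    (hp : ∀ j', j = j' + 1 → ∀ f : MvPolynomial σ F, Hom j' f →
      tr (x * (e o * aeval e f) * e o ^ (2 * n - 2 * j)) = 0) (hx0 : x ≠ 0) :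
    ∃ r : F, 0 < r ∧ (-1) ^ j * tr (x * x * e o ^ (2 * n - 2 * j)) = algebraMap F K r := by
  obtain ⟨f, hf, rfl⟩ := H.rat hj hx h
  have hC : 0 < c / mom 1 (2 * n) := div_pos H.cpos (mom_one_pos n)
  have h1 := gs_prim H.pos H.neg hj hf (by
    intro j' hj' g hg
    have h2 := H.tr_eq (f := f * (X o * g) * X o ^ (2 * n - 2 * j)) (by
      have := (hf.mul ((hom_X o).mul hg)).mul (hom_X_pow (F := F) o (2 * n - 2 * j))
      rwa [show j + (1 + j') + (2 * n - 2 * j) = 2 * n by omega] at this)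
    rw [map_mul (aeval e), map_mul (aeval e), map_mul (aeval e), map_pow (aeval e), aeval_X,
      hp j' hj' g hg] at h2
    have h3 := (map_eq_zero_iff (algebraMap F K) (algebraMap F K).injective).1 h2.symm
    exact (mul_eq_zero.1 h3).resolve_left hC.ne') (by
    intro h0
    rw [h0, map_zero] at hx0
    exact hx0 rfl)
  refine ⟨_, mul_pos hC h1, ?_⟩
  have h2 := H.tr_eq (f := f * f * X o ^ (2 * n - 2 * j)) (by
    have := (hf.mul hf).mul (hom_X_pow (F := F) o (2 * n - 2 * j))
    rwa [show j + j + (2 * n - 2 * j) = 2 * n by omega] at this)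
  rw [map_mul (aeval e), map_mul (aeval e), map_pow (aeval e), aeval_X] at h2
  rw [h2]
  simp only [map_mul, map_pow, map_neg, map_one]
  ring

end IsFujiki

end Pool.Agent.Y103.Fj
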