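import Mathlib

/-!
# Gaussian functionals on polynomial rings
-/

open MvPolynomial Finset

namespace Pool.Agent.Y103.Fj

variable {F : Type*} [Field F]

/-- The moments of the Gaussian functional with variance `κ`. -/
def mom (κ : F) : ℕ → F
  | 0 => 1
  | 1 => 0
  | (k + 2) => κ * (k + 1) * mom κ k

lemma mom_succ (κ : F) (k : ℕ) : mom κ (k + 1) = κ * k * mom κ (k - 1) := by
  rcases k with _ | k
  · simp [mom]
  · rw [mom, Nat.add_sub_cancel, Nat.cast_succ]

lemma mom_odd (κ : F) {k : ℕ} (hk : Odd k) : mom κ k = 0 := by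
  obtain ⟨m, rfl⟩ := hk
  induction m with
  | zero => simp [mom]
  | succ m ih =>
    rw [show 2 * (m + 1) + 1 = (2 * m + 1) + 2 by ring, mom, ih, mul_zero]

variable {σ : Type*} [Fintype σ] [DecidableEq σ]

/-- The Gaussian functional for the diagonal quadratic form with coefficients `κ`. -/
noncomputable def gs (κ : σ → F) : MvPolynomial σ F →ₗ[F] F :=
  (MvPolynomial.basisMonomials σ F).constr F (fun α => ∏ i, mom (κ i) (α i))

omit [DecidableEq σ] in
lemma gs_monomial (κ : σ → F) (α : σ →₀ ℕ) (a : F) :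
    gs κ (monomial α a) = a * ∏ i, mom (κ i) (α i) := by
  have h : monomial α a = a • (MvPolynomial.basisMonomials σ F) α := by
    rw [MvPolynomial.coe_basisMonomials, smul_monomial, smul_eq_mul, mul_one]
  rw [h, map_smul, gs, Module.Basis.constr_basis, smul_eq_mul]

/-- Integration by parts. -/
lemma gs_X_mul (κ : σ → F) (i : σ) (f : MvPolynomial σ F) :
    gs κ (X i * f) = κ i * gs κ (pderiv i f) := by
  induction f using MvPolynomial.induction_on' with
  | monomial α a =>
    rw [X, monomial_mul, pderiv_monomial, gs_monomial, gs_monomial, one_mul]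
    have e1 := mul_prod_erase univ (fun j => mom (κ j) ((Finsupp.single i 1 + α : σ →₀ ℕ) j))
      (mem_univ i)
    have e2 := mul_prod_erase univ (fun j => mom (κ j) ((α - Finsupp.single i 1 : σ →₀ ℕ) j))
      (mem_univ i)
    rw [← e1, ← e2]
    have h1 : ∀ j ∈ univ.erase i, mom (κ j) ((Finsupp.single i 1 + α : σ →₀ ℕ) j) =
        mom (κ j) ((α - Finsupp.single i 1 : σ →₀ ℕ) j) := by
      intro j hj
      have hji : i ≠ j := (ne_of_mem_erase hj).symm
      rw [Finsupp.add_apply, Finsupp.tsub_apply, Finsupp.single_eq_of_ne' hji, zero_add,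
        Nat.sub_zero]
    rw [prod_congr rfl h1]
    have h2 : (Finsupp.single i 1 + α : σ →₀ ℕ) i = α i + 1 := by
      rw [Finsupp.add_apply, Finsupp.single_eq_same, add_comm]
    have h3 : (α - Finsupp.single i 1 : σ →₀ ℕ) i = α i - 1 := by
      rw [Finsupp.tsub_apply, Finsupp.single_eq_same]
    rw [h2, h3, mom_succ]
    ring
  | add p q hp hq => rw [mul_add, map_add, hp, hq, map_add, map_add, mul_add]

omit [DecidableEq σ] in
lemma gs_one (κ : σ → F) : gs κ 1 = 1 := by
  rw [← C_1, C_apply, gs_monomial]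
  simp [mom]

omit [DecidableEq σ] in
lemma gs_C_mul (κ : σ → F) (a : F) (f : MvPolynomial σ F) : gs κ (C a * f) = a * gs κ f := by
  rw [← smul_eq_C_mul, map_smul, smul_eq_mul]

/-- The linear form with coefficients `t`. -/
noncomputable def lin (t : σ → F) : MvPolynomial σ F := ∑ i, C (t i) * X i

omit [DecidableEq σ] in
lemma pderiv_lin (t : σ → F) (i : σ) : pderiv i (lin t) = C (t i) := by
  classical
  rw [lin, map_sum, sum_eq_single i]
  · rw [pderiv_C_mul, pderiv_X_self, mul_one]
  · intro j _ hj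
    rw [pderiv_C_mul, pderiv_X_of_ne hj, mul_zero]
  · intro h; exact absurd (mem_univ _) h

/-- The even moments of linear forms. -/
lemma gs_lin_pow (κ : σ → F) (t : σ → F) (k : ℕ) :
    gs κ (lin t ^ (k + 2)) = (k + 1) * (∑ i, κ i * t i ^ 2) * gs κ (lin t ^ k) := by
  have h1 : lin t ^ (k + 2) = ∑ i, C (t i) * (X i * lin t ^ (k + 1)) := by
    rw [pow_succ' _ (k + 1)]
    conv_lhs => rw [lin]
    rw [sum_mul]
    apply sum_congr rfl
    intro i _
    rw [mul_assoc]
    rfl
  rw [h1, map_sum, mul_sum, sum_mul]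
  apply sum_congr rfl
  intro i _
  rw [gs_C_mul, gs_X_mul, pderiv_pow, pderiv_lin, Nat.add_sub_cancel]
  have h2 : ((k + 1 : ℕ) : MvPolynomial σ F) * lin t ^ k * C (t i) =
      C (((k + 1 : ℕ) : F) * t i) * lin t ^ k := by
    rw [C_mul, map_natCast]
    ring
  rw [h2, gs_C_mul]
  push_cast
  ring

/-- The value on even powers of linear forms. -/
lemma gs_lin_even (κ : σ → F) (t : σ → F) (n : ℕ) :
    gs κ (lin t ^ (2 * n)) = mom 1 (2 * n) * (∑ i, κ i * t i ^ 2) ^ n := by
  induction n with
  | zero => simp [gs_one, mom]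
  | succ n ih =>
    rw [show 2 * (n + 1) = 2 * n + 2 by ring, gs_lin_pow, ih, mom, pow_succ]
    push_cast
    ring

end Pool.Agent.Y103.Fj
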