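import Pool.Agent.Y103.Fj.Weil

/-!
# Varieties with a Fujiki relation on divisors
-/

open CategoryTheory AlgebraicGeometry Submodule

universe u v

namespace Pool.Agent.Y103.Fj

open Pool.Agent.H914 Pool.Agent.H914.VarClass Pool.Agent.H914.VarClass.Obj
  Pool.Agent.H914.WeilCohomology Pool.Agent.H281R3.HT Pool.Agent.W552 Pool.Agent.Y103

section Poly

open Polynomial

variable {R : Type*} [CommRing R]

/-- The polynomial `(a + b X + d X ^ 2) ^ n`. -/
noncomputable def quadPow (a b d : R) (n : ℕ) : R[X] := (C a + C b * X + C d * X ^ 2) ^ n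

lemma quad_coeff (a b d : R) : (C a + C b * X + C d * X ^ 2).coeff 0 = a ∧
    (C a + C b * X + C d * X ^ 2).coeff 1 = b ∧ (C a + C b * X + C d * X ^ 2).coeff 2 = d := by
  refine ⟨?_, ?_, ?_⟩ <;>
    simp [coeff_C, coeff_X, coeff_X_pow]

lemma quadPow_coeff_zero (a b d : R) (n : ℕ) : (quadPow a b d n).coeff 0 = a ^ n := by
  rw [quadPow, coeff_zero_eq_eval_zero]
  simp

lemma quadPow_coeff_one (a b d : R) (n : ℕ) :
    (quadPow a b d n).coeff 1 = n * a ^ (n - 1) * b := by
  induction n with
  | zero => simp [quadPow, coeff_one]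
  | succ n ih =>
    have h0 := quadPow_coeff_zero a b d n
    obtain ⟨h1, h2, h3⟩ := quad_coeff a b d
    rw [quadPow, pow_succ, mul_coeff_one, h1, h2]
    rw [quadPow] at ih h0
    rw [ih, h0, Nat.add_sub_cancel]
    rcases n with _ | n
    · simp
    · rw [Nat.add_sub_cancel, pow_succ]
      push_cast
      ring

lemma quadPow_coeff_two (a d : R) (n : ℕ) :
    (quadPow a 0 d n).coeff 2 = n * a ^ (n - 1) * d := by
  induction n with
  | zero => simp [quadPow, coeff_one]
  | succ n ih =>
    have h0 := quadPow_coeff_zero a 0 d n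
    have h01 := quadPow_coeff_one a 0 d n
    obtain ⟨h1, h2, h3⟩ := quad_coeff a 0 d
    rw [quadPow, pow_succ, coeff_mul]
    have h4 : Finset.HasAntidiagonal.antidiagonal 2 = {((0 : ℕ), 2), (1, 1), (2, 0)} := rfl
    rw [h4, Finset.sum_insert (by decide), Finset.sum_insert (by decide), Finset.sum_singleton]
    simp only
    rw [h1, h2, h3]
    rw [quadPow] at ih h0
    rw [ih, h0, mul_zero, zero_add, Nat.add_sub_cancel]
    rcases n with _ | n
    · simp
    · rw [Nat.add_sub_cancel, pow_succ]
      push_cast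
      ring

lemma natDegree_quadPow (a b d : R) (n : ℕ) : (quadPow a b d n).natDegree ≤ 2 * n := by
  rw [quadPow, mul_comm 2 n]
  refine le_trans natDegree_pow_le (Nat.mul_le_mul_left _ ?_)
  refine (natDegree_add_le_of_degree_le (natDegree_add_le_of_degree_le ?_ ?_) ?_)
  · rw [natDegree_C]; exact Nat.zero_le _
  · exact (natDegree_C_mul_le _ _).trans (natDegree_X_le.trans (by norm_num))
  · exact (natDegree_C_mul_le _ _).trans (natDegree_X_pow_le 2)

lemma eval_quadPow (a b d s : R) (n : ℕ) :
    ∑ l ∈ Finset.range (2 * n + 1), (quadPow a b d n).coeff l * s ^ l =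
      (a + b * s + d * s ^ 2) ^ n := by
  rw [← eval_eq_sum_range' (Nat.lt_succ_of_le (natDegree_quadPow a b d n)), quadPow]
  simp

end Poly

variable {k : Type u} [Field k] {𝒱 : VarClass k} {ops : CycleOps 𝒱}
  {W : WeilCohomology.{u, v} ops} {X : 𝒱.Obj} {D : X.Cycles} {n : ℕ}
  {q : QuadraticForm ℚ X.Cycles} {c : ℚ}

/-- The Fujiki relation in terms of classes. -/
lemma tr_pow (hn : X.dim = 2 * n)
    (hF : ∀ z, X.IsCyc 1 z → X.V.degCycle (divPow ops z (2 * n) X.V.fundCycle) = c * q z ^ n)
    {z : X.Cycles} (hz : X.IsCyc 1 z) :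
    W.tr X (W.cl X z ^ (2 * n)) = ((c * q z ^ n : ℚ) : W.K) := by
  have h1 : X.IsCyc X.dim (divPow ops z (2 * n) X.V.fundCycle) := by
    have := divPow_mem (ops := ops) hz (2 * n) X.V.fundCycle_mem
    rw [hn]
    rwa [zero_add] at this
  have h2 := W.tr_cl h1
  rwa [cl_divPow, mulLeft_pow_apply', W.cl_fund, mul_one, hF z hz] at h2

lemma isCyc_add_smul (hD : X.IsCyc 1 D) {z : X.Cycles} (hz : X.IsCyc 1 z) (s : ℚ) :
    X.IsCyc 1 (D + s • z) := hD.add (hz.smul s)

/-- The coefficients of the Fujiki relation. -/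
lemma fujiki_coeff (hn : X.dim = 2 * n) (hD : X.IsCyc 1 D)
    (hF : ∀ z, X.IsCyc 1 z → X.V.degCycle (divPow ops z (2 * n) X.V.fundCycle) = c * q z ^ n)
    {z : X.Cycles} (hz : X.IsCyc 1 z) {l : ℕ} (hl : l < 2 * n + 1) :
    ((2 * n).choose l : W.K) * W.tr X (W.cl X z ^ l * W.cl X D ^ (2 * n - l)) =
      ((c * (quadPow (q D) (QuadraticMap.polar q D z) (q z) n).coeff l : ℚ) : W.K) := by
  have h1 : ∀ s : ℚ, ∑ l ∈ Finset.range (2 * n + 1), s ^ l •
      (((2 * n).choose l : W.K) * W.tr X (W.cl X z ^ l * W.cl X D ^ (2 * n - l)) -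
      ((c * (quadPow (q D) (QuadraticMap.polar q D z) (q z) n).coeff l : ℚ) : W.K)) = 0 := by
    intro s
    have h2 := tr_pow (W := W) hn hF (isCyc_add_smul hD hz s)
    have h3 : q (D + s • z) = q D + QuadraticMap.polar q D z * s + q z * s ^ 2 := by
      rw [QuadraticMap.map_add q, QuadraticMap.map_smul, QuadraticMap.polar_smul_right]
      simp only [smul_eq_mul]
      ring
    rw [h3, ← eval_quadPow] at h2
    rw [map_add, W.cl_smul] at h2
    have hcomm : Commute ((s : W.K) • W.cl X z) (W.cl X D) :=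
      (show Commute (W.cl X z) (W.cl X D) from W.even_comm (W.cl_mem hz) _).smul_left _
    rw [add_comm (W.cl X D), hcomm.add_pow, map_sum] at h2
    simp only [smul_sub, Finset.sum_sub_distrib]
    rw [sub_eq_zero]
    calc ∑ l ∈ Finset.range (2 * n + 1), s ^ l •
          (((2 * n).choose l : W.K) * W.tr X (W.cl X z ^ l * W.cl X D ^ (2 * n - l)))
        = ∑ l ∈ Finset.range (2 * n + 1), W.tr X (((s : W.K) • W.cl X z) ^ l *
            W.cl X D ^ (2 * n - l) * ((2 * n).choose l : W.H X)) := by
          apply Finset.sum_congr rfl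
          intro l _
          have h4 : ((s : W.K) • W.cl X z) ^ l * W.cl X D ^ (2 * n - l) *
              ((2 * n).choose l : W.H X) = ((s : W.K) ^ l * ((2 * n).choose l : W.K)) •
                (W.cl X z ^ l * W.cl X D ^ (2 * n - l)) := by
            rw [smul_pow, smul_mul_assoc, smul_mul_assoc, mul_smul]
            congr 1
            rw [← nsmul_eq_mul', Nat.cast_smul_eq_nsmul]
          rw [h4, map_smul, smul_eq_mul, mul_assoc, Rat.smul_def, Rat.cast_pow]
      _ = _ := h2
      _ = _ := by
          rw [Finset.mul_sum, Rat.cast_sum]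
          apply Finset.sum_congr rfl
          intro l _
          rw [Rat.smul_def]
          push_cast
          ring
  have h5 := coeff_eq_zero h1 hl
  rwa [sub_eq_zero] at h5

/-- The form for primitive divisors. -/
noncomputable def gam (n : ℕ) (c a : ℚ) : ℚ := (2 * n).choose 2 / (c * (n * a ^ (n - 1)))

lemma gam_pos (hn1 : 1 ≤ n) (hc : 0 < c) {a : ℚ} (ha : 0 < a) : 0 < gam n c a := by
  rw [gam]
  have h1 : 0 < (2 * n).choose 2 := Nat.choose_pos (by omega)
  have h2 : (0 : ℚ) < (2 * n).choose 2 := by exact_mod_cast h1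
  have h3 : (0 : ℚ) < n := by exact_mod_cast hn1
  positivity

/-- A primitive divisor is orthogonal to `D` for the quadratic form. -/
lemma polar_zero (hn : X.dim = 2 * n) (hn1 : 1 ≤ n) (hD : X.IsCyc 1 D) (hc : 0 < c)
    (hF : ∀ z, X.IsCyc 1 z → X.V.degCycle (divPow ops z (2 * n) X.V.fundCycle) = c * q z ^ n)
    (hq : 0 < q D) {z : X.Cycles} (hz : X.IsCyc 1 z)
    (hp : W.cl X D ^ (2 * n - 1) * W.cl X z = 0) : QuadraticMap.polar q D z = 0 := by
  have h1 := fujiki_coeff (W := W) hn hD hF hz (l := 1) (by omega)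
  rw [pow_one, W.even_comm (W.cl_mem hz), hp, map_zero, mul_zero, quadPow_coeff_one] at h1
  have h2 : c * (n * q D ^ (n - 1) * QuadraticMap.polar q D z) = 0 := by
    have h3 : ((0 : ℚ) : W.K) = ((c * (n * q D ^ (n - 1) * QuadraticMap.polar q D z) : ℚ) :
      W.K) := by rw [Rat.cast_zero]; exact h1
    exact_mod_cast h3.symm
  have h3 : (0 : ℚ) < n := by exact_mod_cast hn1
  have h4 : 0 < c * (n * q D ^ (n - 1)) := by positivity
  rw [← mul_assoc] at h2
  exact (mul_eq_zero.1 h2).resolve_left h4.ne'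

/-- The quadratic form on primitive divisors. -/
lemma q_prim (hn : X.dim = 2 * n) (hn1 : 1 ≤ n) (hD : X.IsCyc 1 D) (hc : 0 < c)
    (hF : ∀ z, X.IsCyc 1 z → X.V.degCycle (divPow ops z (2 * n) X.V.fundCycle) = c * q z ^ n)
    (hq : 0 < q D) {z : X.Cycles} (hz : X.IsCyc 1 z)
    (hp : W.cl X D ^ (2 * n - 1) * W.cl X z = 0) :
    ((q z : ℚ) : W.K) = (gam n c (q D) : W.K) *
      W.tr X (W.cl X z * W.cl X z * W.cl X D ^ (2 * n - 2)) := by
  have h0 := polar_zero (W := W) hn hn1 hD hc hF hq hz hp
  have h1 := fujiki_coeff (W := W) hn hD hF hz (l := 2) (by omega)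
  rw [h0, quadPow_coeff_two, pow_two] at h1
  have h3 : (0 : ℚ) < n := by exact_mod_cast hn1
  have h4 : 0 < c * (n * q D ^ (n - 1)) := by positivity
  have h5 : ((c * (n * q D ^ (n - 1)) : ℚ) : W.K) ≠ 0 := by exact_mod_cast h4.ne'
  have h6 : ((c * (n * q D ^ (n - 1) * q z) : ℚ) : W.K) =
      ((c * (n * q D ^ (n - 1)) : ℚ) : W.K) * ((q z : ℚ) : W.K) := by
    push_cast; ring
  rw [h6] at h1
  rw [gam, Rat.cast_div, Rat.cast_natCast, div_mul_eq_mul_div, h1, mul_div_assoc,
    mul_div_cancel₀ _ h5]

/-- The negative of the form on primitive divisors. -/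
noncomputable def nform (W : WeilCohomology.{u, v} ops) (X : 𝒱.Obj) (D : X.Cycles) (r : ℕ) :
    W.H X →ₗ[W.K] W.H X →ₗ[W.K] W.K :=
  LinearMap.mk₂ W.K (fun x y => - W.tr X (x * y * W.cl X D ^ r))
    (by intro x x' y; rw [add_mul, add_mul, map_add, neg_add])
    (by intro a x y; rw [smul_mul_assoc, smul_mul_assoc, map_smul, smul_eq_mul, smul_eq_mul]; ring)
    (by intro x y y'; rw [mul_add, add_mul, map_add, neg_add])
    (by intro a x y; rw [mul_smul_comm, smul_mul_assoc, map_smul, smul_eq_mul, smul_eq_mul]; ring)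

lemma nform_apply (r : ℕ) (x y : W.H X) :
    nform W X D r x y = - W.tr X (x * y * W.cl X D ^ r) := rfl

/-- The standard conjecture for divisors. -/
lemma divisor_index (hn : X.dim = 2 * n) (hn1 : 1 ≤ n) (hD : X.IsCyc 1 D)
    (hI : HodgeTypeFor W X D (InRing W.K (algClasses W X) 1 1)) {x : W.H X}
    (hx : x ∈ algClasses W X 1) (hp : W.cl X D ^ (2 * n - 1) * x = 0) (h0 : x ≠ 0) :
    ∃ r : ℚ, 0 < r ∧ nform W X D (2 * n - 2) x x = r := by
  obtain ⟨z, hz, rfl⟩ := hx
  have h1 := hI 1 (by omega) z hz ⟨1, le_rfl, subset_span (by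
      have := IsMonomial.mul (R := algClasses W X) (m := 1) le_rfl le_rfl
        (show W.cl X z ∈ algClasses W X 1 from ⟨z, hz, rfl⟩) IsMonomial.one
      rwa [mul_one] at this)⟩ (by
    rw [cl_divPow, mulLeft_pow_apply', hn, show 2 * n - 2 * 1 + 1 = 2 * n - 1 by omega]
    exact hp) h0
  refine ⟨_, h1, ?_⟩
  have h4 := deg_eq (W := W) hz (divPow_mem (ops := ops) hD (X.dim - 2 * 1) hz) (by omega)
  rw [cl_divPow, mulLeft_pow_apply'] at h4
  have h5 : W.cl X z * W.cl X z * W.cl X D ^ (X.dim - 2 * 1) =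
      W.cl X z * (W.cl X D ^ (X.dim - 2 * 1) * W.cl X z) := by
    rw [mul_assoc, W.even_comm (W.cl_mem hz) (W.cl X D ^ (X.dim - 2 * 1))]
  rw [nform_apply, show 2 * n - 2 = X.dim - 2 * 1 by omega, h5, h4]
  push_cast
  ring

/-- **The standard conjectures of Hodge type and `D` for products of divisor classes on varieties
with a Fujiki relation.** -/
theorem hodge_fujiki (hn : X.dim = 2 * n) (hn1 : 1 ≤ n) (hD : X.IsCyc 1 D) (hc : 0 < c)
    (hF : ∀ z, X.IsCyc 1 z → X.V.degCycle (divPow ops z (2 * n) X.V.fundCycle) = c * q z ^ n)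
    (hq : 0 < q D) (hI : HodgeTypeFor W X D (InRing W.K (algClasses W X) 1 1)) :
    StdFor W X D (InRing W.K (algClasses W X) 1 n) := by
  classical
  set M : W.H X → Prop := fun x => x ∈ algClasses W X 1 ∧ W.cl X D ^ (2 * n - 1) * x = 0 with hM
  have hMr : RatSub W.K M :=
    { zero := ⟨alg_zero _, mul_zero _⟩
      add := fun {x y} hx hy => ⟨alg_add hx.1 hy.1, by rw [mul_add, hx.2, hy.2, add_zero]⟩
      smul := fun a {x} hx => ⟨alg_smul a hx.1, by rw [mul_smul_comm, hx.2, smul_zero]⟩ }
  have hξ : ∀ r, W.cl X D ^ r ∈ algClasses W X r := pow_alg hD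
  have hrat : ∀ x y, x ∈ algClasses W X 1 → y ∈ algClasses W X 1 →
      ∃ a : ℚ, nform W X D (2 * n - 2) x y = a := by
    intro x y hx hy
    obtain ⟨a, ha⟩ := alg_rat (alg_mul (alg_mul hx hy) (hξ (2 * n - 2)))
      (alg_one (W := W) (X := X))
    rw [bil_apply, mul_one] at ha
    exact ⟨-a, by rw [nform_apply, ha, Rat.cast_neg]⟩
  obtain ⟨N, e, w, he, hw, horth, hspan⟩ := exists_ratBasis hMr (nform W X D (2 * n - 2))
    (fun x y hx hy => hrat x y hx.1 hy.1)
    (by
      intro x y hx _
      rw [nform_apply, nform_apply, alg_even_comm hx.1])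
    (by
      intro x hx hx0
      exact divisor_index hn hn1 hD hI hx.1 hx.2 hx0)
  choose z hz hzc using fun l => (he l).1
  -- the family
  let _ := ratAlg W X
  have := ratTower W X
  set γ := gam n c (q D) with hγ
  have hγ0 : 0 < γ := gam_pos hn1 hc hq
  set E : Option (Fin N) → Cen W X := fun i => match i with
    | none => toCen (j := 1) (⟨D, hD, rfl⟩ : W.cl X D ∈ algClasses W X 1)
    | some l => toCen (he l).1 with hE
  set κ : Option (Fin N) → ℚ := fun i => match i with
    | none => q D
    | some l => - (γ * w l) with hκ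
  have hEalg : ∀ i, (E i : W.H X) ∈ algClasses W X 1 := by
    rintro (_ | l)
    · exact ⟨D, hD, rfl⟩
    · exact (he l).1
  have hval : ∀ t : Option (Fin N) → ℚ, ((∑ i, t i • E i : Cen W X) : W.H X) =
      (t none : W.K) • W.cl X D + ∑ l, (t (some l) : W.K) • e l := by
    intro t
    rw [Fintype.sum_option, rat_smul]
    have h1 : ∀ s : Finset (Fin N), ((∑ l ∈ s, t (some l) • E (some l) : Cen W X) : W.H X) =
        ∑ l ∈ s, (t (some l) : W.K) • e l := by
      intro s
      induction s using Finset.induction_on with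
      | empty => rfl
      | insert a s ha ih =>
        rw [Finset.sum_insert ha, Finset.sum_insert ha, ← ih, rat_smul]
        rfl
    rw [← h1]
    rfl
  have H : IsFujiki n (trZ W X) E none κ c :=
    { pos := hq
      neg := by
        rintro (_ | l) hl
        · exact absurd rfl hl
        · have := mul_pos hγ0 (hw l)
          change - (γ * w l) < 0
          linarith
      cpos := hc
      rel := by
        intro t
        -- the cycle
        set y : X.Cycles := ∑ l, t (some l) • z l with hy
        have hycyc : ∀ s : Finset (Fin N), X.IsCyc 1 (∑ l ∈ s, t (some l) • z l) := by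
          intro s
          induction s using Finset.induction_on with
          | empty => rw [Finset.sum_empty]; exact SmVar.IsCyc.zero _ _
          | insert a s ha ih =>
            rw [Finset.sum_insert ha]
            exact (SmVar.IsCyc.smul _ (hz a)).add ih
        have hycl : W.cl X y = ∑ l, (t (some l) : W.K) • e l := by
          rw [hy, map_sum]
          apply Finset.sum_congr rfl
          intro l _
          rw [W.cl_smul, hzc]
        have hyp : W.cl X D ^ (2 * n - 1) * W.cl X y = 0 := by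
          rw [hycl, Finset.mul_sum]
          apply Finset.sum_eq_zero
          intro l _
          rw [mul_smul_comm, (he l).2, smul_zero]
        have hpol := polar_zero (W := W) hn hn1 hD hc hF hq (hycyc Finset.univ) hyp
        have hqy : q y = - γ * ∑ l, w l * t (some l) ^ 2 := by
          have h1 := q_prim (W := W) hn hn1 hD hc hF hq (hycyc Finset.univ) hyp
          have h2 : W.tr X (W.cl X y * W.cl X y * W.cl X D ^ (2 * n - 2)) =
              ((- ∑ l, w l * t (some l) ^ 2 : ℚ) : W.K) := by
            have h3 : W.tr X (W.cl X y * W.cl X y * W.cl X D ^ (2 * n - 2)) =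
                - nform W X D (2 * n - 2) (W.cl X y) (W.cl X y) := by
              rw [nform_apply, neg_neg]
            rw [h3, hycl, map_sum (nform W X D (2 * n - 2)), LinearMap.sum_apply, Rat.cast_neg,
              Rat.cast_sum]
            congr 1
            apply Finset.sum_congr rfl
            intro l _
            rw [map_smul, LinearMap.smul_apply, map_sum, Finset.sum_eq_single l]
            · rw [map_smul, horth, if_pos rfl, smul_eq_mul, smul_eq_mul]
              push_cast
              ring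
            · intro l' _ hl'
              rw [map_smul, horth, if_neg (Ne.symm hl'), smul_zero]
            · intro h; exact absurd (Finset.mem_univ _) h
          rw [h2] at h1
          have h4 : ((q y : ℚ) : W.K) = ((- γ * ∑ l, w l * t (some l) ^ 2 : ℚ) : W.K) := by
            rw [h1]
            push_cast
            ring
          exact_mod_cast h4
        have hqt : q (t none • D + y) = ∑ i, κ i * t i ^ 2 := by
          rw [QuadraticMap.map_add q, QuadraticMap.polar_smul_left, hpol, smul_zero, add_zero,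
            QuadraticMap.map_smul, hqy, Fintype.sum_option]
          simp only [hκ, smul_eq_mul, Finset.mul_sum]
          congr 1
          · ring
          · apply Finset.sum_congr rfl
            intro l _
            ring
        have hcyc : X.IsCyc 1 (t none • D + y) :=
          (SmVar.IsCyc.smul _ hD).add (hycyc Finset.univ)
        have h5 := tr_pow (W := W) hn hF hcyc
        rw [map_add, W.cl_smul, hycl, ← hval, hqt] at h5
        exact h5 }
  refine std_of_fujiki hEalg hn hD rfl H ?_
  -- every divisor class is a rational combination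
  intro a ha
  obtain ⟨r, hr⟩ := alg_rat (alg_mul (hξ (2 * n - 1)) ha) (alg_one (W := W) (X := X))
  rw [bil_apply, mul_one] at hr
  have hs := tr_pow (W := W) hn hF hD
  have hs0 : (0 : ℚ) < c * q D ^ n := by positivity
  have hs1 : ((c * q D ^ n : ℚ) : W.K) ≠ 0 := by exact_mod_cast hs0.ne'
  set b : W.H X := a - ((r / (c * q D ^ n) : ℚ) : W.K) • W.cl X D with hb
  have hbM : M b := by
    refine ⟨alg_sub ha (alg_smul _ ⟨D, hD, rfl⟩), ?_⟩
    apply top_eq_zero
    · have h1 : W.cl X D ^ (2 * n - 1) * b ∈ algClasses W X (2 * n - 1 + 1) :=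
        alg_mul (hξ _) (alg_sub ha (alg_smul _ ⟨D, hD, rfl⟩))
      have h2 := alg_gr h1
      rwa [show 2 * n - 1 + 1 = X.dim by omega] at h2
    · rw [hb, mul_sub, map_sub, hr, mul_smul_comm, map_smul, ← pow_succ,
        show 2 * n - 1 + 1 = 2 * n by omega, hs, Rat.cast_div, smul_eq_mul,
        div_mul_cancel₀ _ hs1, sub_self]
  obtain ⟨t, ht⟩ := hspan b (subset_span hbM) (fun l => hrat _ _ hbM.1 (he l).1)
  set T : Option (Fin N) → ℚ := fun i => match i with
    | none => r / (c * q D ^ n)
    | some l => t l with hT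
  refine ⟨lin T, ?_, ?_⟩
  · intro α hα
    rw [lin, MvPolynomial.coeff_sum] at hα
    obtain ⟨i, _, hi⟩ := Finset.exists_ne_zero_of_sum_ne_zero hα
    rw [MvPolynomial.coeff_C_mul] at hi
    exact hom_X i α (right_ne_zero_of_mul hi)
  · rw [IsFujiki.aeval_lin, hval]
    change ((r / (c * q D ^ n) : ℚ) : W.K) • W.cl X D + ∑ l, (t l : W.K) • e l = a
    rw [← ht, hb]
    abel

end Pool.Agent.Y103.Fj
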