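import Pool.Agent.Y103.Fj.Prim

/-!
# Polarization
-/

open MvPolynomial Finset

namespace Pool.Agent.Y103.Fj

variable {F : Type*} [Field F] [CharZero F]

/-- A polynomial function with values in a vector space which vanishes has vanishing
coefficients. -/
lemma coeff_eq_zero {M : Type*} [AddCommGroup M] [Module F M] {N : ℕ} {v : ℕ → M}
    (h : ∀ s : F, ∑ l ∈ range N, s ^ l • v l = 0) {l : ℕ} (hl : l < N) : v l = 0 := by
  rw [← Module.forall_dual_apply_eq_zero_iff F]
  intro φ
  set P : Polynomial F := ∑ l ∈ range N, Polynomial.monomial l (φ (v l)) with hP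
  have hP0 : P = 0 := by
    apply Polynomial.funext
    intro s
    rw [hP, Polynomial.eval_finsetSum, Polynomial.eval_zero]
    have h1 := congrArg φ (h s)
    rw [map_sum, map_zero] at h1
    rw [← h1]
    apply sum_congr rfl
    intro i _
    rw [Polynomial.eval_monomial, map_smul, smul_eq_mul, mul_comm]
  have h2 : P.coeff l = φ (v l) := by
    rw [hP, Polynomial.finsetSum_coeff, sum_eq_single l]
    · rw [Polynomial.coeff_monomial, if_pos rfl]
    · intro i _ hi
      rw [Polynomial.coeff_monomial, if_neg hi]
    · intro h3
      exact absurd (mem_range.2 hl) h3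
  rw [← h2, hP0, Polynomial.coeff_zero]

variable {σ : Type*} [Fintype σ] {M : Type*} [AddCommGroup M] [Module F M]

omit [CharZero F] in
lemma lin_add_smul [DecidableEq σ] (t : σ → F) (s : F) (i : σ) :
    lin (fun l => t l + if l = i then s else 0) = lin t + C s * X i := by
  rw [lin, lin]
  simp only [C_add, add_mul, sum_add_distrib]
  congr 1
  rw [sum_eq_single i]
  · rw [if_pos rfl]
  · intro l _ hl
    rw [if_neg hl, C_0, zero_mul]
  · intro h; exact absurd (mem_univ _) h

/-- **Polarization**: a linear map which vanishes on all powers of linear forms vanishes on all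
homogeneous polynomials. -/
theorem polar {m : ℕ} (Φ : MvPolynomial σ F →ₗ[F] M) (h : ∀ t : σ → F, Φ (lin t ^ m) = 0)
    {f : MvPolynomial σ F} (hf : Hom m f) : Φ f = 0 := by
  classical
  have key : ∀ k ≤ m, ∀ α : σ →₀ ℕ, ∑ i, α i = k → ∀ t : σ → F,
      Φ (monomial α 1 * lin t ^ (m - k)) = 0 := by
    intro k
    induction k with
    | zero =>
      intro _ α hα t
      have h1 : α = 0 := by
        ext i
        have := sum_eq_zero_iff.1 hα i (mem_univ i)
        simpa using this
      rw [h1, ← C_apply, C_1, one_mul, Nat.sub_zero]
      exact h t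
    | succ k ih =>
      intro hk α hα t
      obtain ⟨i, hi⟩ : ∃ i, α i ≠ 0 := by
        by_contra h0
        push Not at h0
        rw [sum_eq_zero (fun i _ => h0 i)] at hα
        omega
      set β := α - Finsupp.single i 1 with hβ
      have hαβ : α = β + Finsupp.single i 1 := by
        rw [hβ, tsub_add_cancel_of_le (Finsupp.single_le_iff.2 (by omega))]
      have hβs : ∑ l, β l = k := by
        have := sum_add_single β i
        rw [← hαβ, hα] at this
        omega
      set r := m - (k + 1) with hr
      have hr1 : m - k = r + 1 := by omega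
      have h1 : ∀ s : F, ∑ l ∈ range (r + 1 + 1), s ^ l •
          Φ (((r + 1).choose l : MvPolynomial σ F) *
            (monomial β 1 * (X i ^ l * lin t ^ (r + 1 - l)))) = 0 := by
        intro s
        have h2 := ih (by omega) β hβs (fun l => t l + if l = i then s else 0)
        rw [lin_add_smul, hr1, add_comm (lin t), add_pow, mul_sum, map_sum] at h2
        rw [← h2]
        apply sum_congr rfl
        intro l _
        rw [← map_smul]
        congr 1
        rw [smul_eq_C_mul, mul_pow, ← C_pow]
        ring
      have h3 := coeff_eq_zero h1 (l := 1) (by omega)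
      rw [pow_one, Nat.add_sub_cancel, Nat.choose_one_right] at h3
      have h4 : (((r + 1 : ℕ) : MvPolynomial σ F) * (monomial β 1 * (X i * lin t ^ r))) =
          ((r + 1 : ℕ) : F) • (monomial α 1 * lin t ^ r) := by
        rw [smul_eq_C_mul, map_natCast, hαβ]
        have h5 : monomial (β + Finsupp.single i 1) (1 : F) = monomial β 1 * X i := by
          rw [X, monomial_mul, one_mul]
        rw [h5]
        ring
      rw [h4, map_smul, smul_eq_zero] at h3
      rcases h3 with h3 | h3
      · exact absurd h3 (by exact_mod_cast Nat.succ_ne_zero r)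
      · exact h3
  rw [f.as_sum, map_sum]
  apply sum_eq_zero
  intro α hα
  have h1 := key m le_rfl α (hf α (mem_support_iff.1 hα)) 0
  rw [Nat.sub_self, pow_zero, mul_one] at h1
  have h2 : monomial α (coeff α f) = coeff α f • monomial α (1 : F) := by
    rw [smul_monomial, smul_eq_mul, mul_one]
  rw [h2, map_smul, h1, smul_zero]

end Pool.Agent.Y103.Fj
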