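import Pool.Agent.Y103.Fj.Sos

/-!
# Positivity of the Gaussian functional for forms of signature `(1, r)`
-/

open MvPolynomial Finset

namespace Pool.Agent.Y103.Fj

variable {F : Type*} [Field F] {σ : Type*} [Fintype σ] [DecidableEq σ]

/-- All monomials of `f` have the degree `d` and their exponent of the variable `o` has the parity
of `e`. -/
def Pure (o : σ) (d e : ℕ) (f : MvPolynomial σ F) : Prop :=
  ∀ α, coeff α f ≠ 0 → ∑ i, α i = d ∧ Even (α o + e)

omit [DecidableEq σ] in
lemma sum_add_single (α : σ →₀ ℕ) (i : σ) :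
    ∑ l, (α + Finsupp.single i 1 : σ →₀ ℕ) l = ∑ l, α l + 1 := by
  have h2 : ∑ l, (Finsupp.single i 1 : σ →₀ ℕ) l = 1 := by
    rw [sum_eq_single i]
    · exact Finsupp.single_eq_same
    · intro l _ hl; exact Finsupp.single_eq_of_ne hl
    · intro h; exact absurd (mem_univ _) h
  simp only [Finsupp.add_apply, sum_add_distrib, h2]

omit [DecidableEq σ] in
/-- A polynomial in which the variable `o` occurs only with odd exponents. -/
lemma gs_odd (κ : σ → F) (o : σ) (f : MvPolynomial σ F)
    (h : ∀ α, coeff α f ≠ 0 → Odd (α o)) : gs κ f = 0 := by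
  classical
  rw [f.as_sum, map_sum]
  apply sum_eq_zero
  intro α hα
  rw [gs_monomial, prod_eq_zero (mem_univ o) (mom_odd _ (h α (mem_support_iff.1 hα))), mul_zero]

omit [DecidableEq σ] in
/-- A polynomial of odd degree. -/
lemma gs_odd_deg (κ : σ → F) (f : MvPolynomial σ F)
    (h : ∀ α, coeff α f ≠ 0 → Odd (∑ i, α i)) : gs κ f = 0 := by
  classical
  rw [f.as_sum, map_sum]
  apply sum_eq_zero
  intro α hα
  obtain ⟨i, hi⟩ : ∃ i, Odd (α i) := by
    by_contra h0
    push Not at h0
    have h1 := h α (mem_support_iff.1 hα)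
    rw [← Nat.not_even_iff_odd] at h1
    exact h1 (even_sum _ (fun i _ => Nat.not_odd_iff_even.1 (h0 i)))
  rw [gs_monomial, prod_eq_zero (mem_univ i) (mom_odd _ hi), mul_zero]

lemma Pure.pderiv_ne {o : σ} {d e : ℕ} {f : MvPolynomial σ F} (h : Pure o (d + 1) e f) {i : σ}
    (hi : i ≠ o) : Pure o d e (pderiv i f) := by
  intro α hα
  rw [coeff_pderiv] at hα
  obtain ⟨h1, h2⟩ := h _ (left_ne_zero_of_mul hα)
  rw [sum_add_single] at h1
  rw [Finsupp.add_apply, Finsupp.single_eq_of_ne (Ne.symm hi), add_zero] at h2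
  exact ⟨by omega, h2⟩

lemma Pure.pderiv_o {o : σ} {d e : ℕ} {f : MvPolynomial σ F} (h : Pure o (d + 1) e f) :
    Pure o d (e + 1) (pderiv o f) := by
  intro α hα
  rw [coeff_pderiv] at hα
  obtain ⟨h1, h2⟩ := h _ (left_ne_zero_of_mul hα)
  rw [sum_add_single] at h1
  rw [Finsupp.add_apply, Finsupp.single_eq_same] at h2
  refine ⟨by omega, ?_⟩
  rwa [add_assoc, add_comm 1 e] at h2

lemma Pure.pderiv_zero {o : σ} {e : ℕ} {f : MvPolynomial σ F} (h : Pure o 0 e f) (i : σ) :
    pderiv i f = 0 := by
  ext α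
  rw [coeff_pderiv, coeff_zero]
  by_contra h0
  obtain ⟨h1, -⟩ := h _ (left_ne_zero_of_mul h0)
  rw [sum_add_single] at h1
  omega

variable [LinearOrder F] [IsStrictOrderedRing F]

omit [DecidableEq σ] in
lemma Pure.gs_sq {κ : σ → F} {o : σ} {d e : ℕ} {f : MvPolynomial σ F} (h : Pure o d e f) :
    0 ≤ (-1) ^ (d + e) * (gs κ f * gs κ f) := by
  by_cases hd : Even (d + e)
  · rw [hd.neg_one_pow, one_mul]
    exact mul_self_nonneg _
  · have h0 : gs κ f = 0 := by
      by_cases he : Odd e
      · apply gs_odd κ o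
        intro α hα
        have h1 := (h α hα).2
        rw [Nat.even_add] at h1
        rw [← Nat.not_even_iff_odd] at he ⊢
        tauto
      · apply gs_odd_deg κ
        intro α hα
        rw [(h α hα).1]
        rw [Nat.even_add] at hd
        rw [← Nat.not_even_iff_odd] at he ⊢
        tauto
    rw [h0]
    simp

variable {κ : σ → F} {o : σ}

/-- The sign of the contractions. -/
theorem Pure.BB_nonneg (ho : 0 < κ o) (hn : ∀ i, i ≠ o → κ i < 0) (k : ℕ) {d e : ℕ}
    {f : MvPolynomial σ F} (h : Pure o d e f) : 0 ≤ (-1) ^ (d + e) * BB κ k f f := by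
  induction k generalizing d e f with
  | zero => rw [BB]; exact h.gs_sq
  | succ k ih =>
    rcases d with _ | d
    · have : BB κ (k + 1) f f = 0 := by
        rw [BB]
        apply sum_eq_zero
        intro i _
        rw [h.pderiv_zero, BB_zero, mul_zero]
      rw [this, mul_zero]
    · rw [BB, mul_sum]
      apply sum_nonneg
      intro i _
      by_cases hi : i = o
      · subst hi
        have h1 := ih h.pderiv_o
        have h2 : (-1 : F) ^ (d + (e + 1)) = (-1) ^ (d + 1 + e) := by
          congr 1; ring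
        rw [h2] at h1
        rw [mul_left_comm]
        exact mul_nonneg ho.le h1
      · have h1 := ih (h.pderiv_ne hi)
        have h2 : (-1 : F) ^ (d + 1 + e) = - (-1) ^ (d + e) := by
          rw [show d + 1 + e = (d + e) + 1 by ring, pow_succ]; ring
        rw [h2, mul_left_comm, neg_mul, mul_neg, ← neg_mul]
        exact mul_nonneg (by have := hn i hi; linarith) h1

/-- The top contraction of a nonzero form. -/
theorem Pure.BB_pos (ho : 0 < κ o) (hn : ∀ i, i ≠ o → κ i < 0) {d e : ℕ}
    {f : MvPolynomial σ F} (h : Pure o d e f) (hf : f ≠ 0) :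
    0 < (-1) ^ (d + e) * BB κ d f f := by
  induction d generalizing e f with
  | zero =>
    obtain ⟨α, hα⟩ := ne_zero_iff.1 hf
    have h1 : f = C (coeff 0 f) := by
      ext β
      rw [coeff_C]
      by_cases hβ : 0 = β
      · rw [if_pos hβ, hβ]
      · rw [if_neg hβ]
        by_contra h0
        have h2 := (h β h0).1
        apply hβ
        ext i
        have h3 : β i ≤ ∑ i, β i := single_le_sum (f := fun i => β i) (fun _ _ => Nat.zero_le _)
          (mem_univ i)
        rw [Finsupp.zero_apply]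
        omega
    have h0 : coeff 0 f ≠ 0 := by
      intro h0
      rw [h0, C_0] at h1
      exact hf h1
    have h2 := (h 0 h0).2
    rw [Finsupp.zero_apply, zero_add] at h2
    rw [zero_add, h2.neg_one_pow, one_mul, BB]
    apply mul_self_pos.2
    rw [h1]
    have := gs_C_mul κ (coeff 0 f) 1
    rw [mul_one, gs_one, mul_one] at this
    rw [this]
    exact h0
  | succ d ih =>
    rw [BB, mul_sum]
    have hterm : ∀ i, 0 ≤ (-1) ^ (d + 1 + e) * (κ i * BB κ d (pderiv i f) (pderiv i f)) ∧
        (pderiv i f ≠ 0 → 0 < (-1) ^ (d + 1 + e) *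
          (κ i * BB κ d (pderiv i f) (pderiv i f))) := by
      intro i
      by_cases hi : i = o
      · subst hi
        have h2 : (-1 : F) ^ (d + (e + 1)) = (-1) ^ (d + 1 + e) := by
          congr 1; ring
        have h1 := h.pderiv_o.BB_nonneg ho hn d
        rw [h2] at h1
        rw [mul_left_comm]
        refine ⟨mul_nonneg ho.le h1, fun h0 => ?_⟩
        have h3 := ih h.pderiv_o h0
        rw [h2] at h3
        exact mul_pos ho h3
      · have h2 : (-1 : F) ^ (d + 1 + e) = - (-1) ^ (d + e) := by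
          rw [show d + 1 + e = (d + e) + 1 by ring, pow_succ]; ring
        have h1 := (h.pderiv_ne hi).BB_nonneg ho hn d
        rw [h2, mul_left_comm, neg_mul, mul_neg, ← neg_mul]
        have h3 : 0 < - κ i := by have := hn i hi; linarith
        exact ⟨mul_nonneg h3.le h1, fun h0 => mul_pos h3 (ih (h.pderiv_ne hi) h0)⟩
    obtain ⟨α, hα⟩ := ne_zero_iff.1 hf
    have hαd := (h α hα).1
    obtain ⟨i, hi⟩ : ∃ i, α i ≠ 0 := by
      by_contra h0
      push Not at h0
      rw [sum_eq_zero (fun i _ => h0 i)] at hαd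
      omega
    apply sum_pos' (fun i _ => (hterm i).1)
    refine ⟨i, mem_univ _, (hterm i).2 ?_⟩
    intro h0
    have h1 : coeff (α - Finsupp.single i 1) (pderiv i f) = 0 := by rw [h0, coeff_zero]
    rw [coeff_pderiv, tsub_add_cancel_of_le (Finsupp.single_le_iff.2 (by omega))] at h1
    rcases mul_eq_zero.1 h1 with h2 | h2
    · exact hα h2
    · have h3 : (0 : F) < ((α - Finsupp.single i 1 : σ →₀ ℕ) i : F) + 1 := by positivity
      exact h3.ne' h2

/-- **Positivity.** -/
theorem Pure.gs_pos (ho : 0 < κ o) (hn : ∀ i, i ≠ o → κ i < 0) {d e : ℕ}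
    {f : MvPolynomial σ F} (h : Pure o d e f) (hf : f ≠ 0) :
    0 < (-1) ^ (d + e) * gs κ (f * f) := by
  rw [gs_mul κ d f f (fun α hα => (h α (mem_support_iff.1 hα)).1.le) d le_rfl, mul_sum]
  apply sum_pos'
  · intro k _
    rw [← mul_div_assoc]
    exact div_nonneg (h.BB_nonneg ho hn k) (by positivity)
  · refine ⟨d, self_mem_range_succ d, ?_⟩
    rw [← mul_div_assoc]
    exact div_pos (h.BB_pos ho hn hf) (by positivity)

end Pool.Agent.Y103.Fj
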