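import Pool.Agent.Y103.Fj.Pos

/-!
# Positivity on primitive polynomials
-/

open MvPolynomial Finset

namespace Pool.Agent.Y103.Fj

variable {F : Type*} [Field F] {σ : Type*} [Fintype σ] {κ : σ → F} {o : σ}

/-- All monomials of `f` have the degree `j`. -/
def Hom (j : ℕ) (f : MvPolynomial σ F) : Prop := ∀ α, coeff α f ≠ 0 → ∑ i, α i = j

lemma Pure.hom {d e : ℕ} {f : MvPolynomial σ F} (h : Pure o d e f) : Hom d f :=
  fun α hα => (h α hα).1

lemma Pure.mul {d e d' e' : ℕ} {f g : MvPolynomial σ F} (hf : Pure o d e f)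
    (hg : Pure o d' e' g) : Pure o (d + d') (e + e') (f * g) := by
  classical
  intro α hα
  rw [coeff_mul] at hα
  obtain ⟨x, hx, hx0⟩ := exists_ne_zero_of_sum_ne_zero hα
  obtain ⟨h1, h2⟩ := hf _ (left_ne_zero_of_mul hx0)
  obtain ⟨h3, h4⟩ := hg _ (right_ne_zero_of_mul hx0)
  rw [HasAntidiagonal.mem_antidiagonal] at hx
  rw [← hx]
  simp only [Finsupp.add_apply, sum_add_distrib]
  refine ⟨by rw [h1, h3], ?_⟩
  have := h2.add h4
  rwa [show x.1 o + e + (x.2 o + e') = x.1 o + x.2 o + (e + e') by ring] at this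

lemma Hom.mul {d d' : ℕ} {f g : MvPolynomial σ F} (hf : Hom d f) (hg : Hom d' g) :
    Hom (d + d') (f * g) := by
  classical
  intro α hα
  rw [coeff_mul] at hα
  obtain ⟨x, hx, hx0⟩ := exists_ne_zero_of_sum_ne_zero hα
  rw [HasAntidiagonal.mem_antidiagonal] at hx
  rw [← hx]
  simp only [Finsupp.add_apply, sum_add_distrib]
  rw [hf _ (left_ne_zero_of_mul hx0), hg _ (right_ne_zero_of_mul hx0)]

lemma hom_X (i : σ) : Hom 1 (X i : MvPolynomial σ F) := by
  classical
  intro α hα
  rw [coeff_X] at hα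
  have h : Finsupp.single i 1 = α := by
    by_contra h
    rw [if_neg h] at hα
    exact hα rfl
  rw [← h]
  simpa using sum_add_single (0 : σ →₀ ℕ) i

lemma pure_X : Pure o 1 1 (X o : MvPolynomial σ F) := by
  classical
  intro α hα
  refine ⟨hom_X o α hα, ?_⟩
  rw [coeff_X] at hα
  have h : Finsupp.single o 1 = α := by
    by_contra h
    rw [if_neg h] at hα
    exact hα rfl
  rw [← h, Finsupp.single_eq_same]
  exact even_two

lemma Hom.add {d : ℕ} {f g : MvPolynomial σ F} (hf : Hom d f) (hg : Hom d g) :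
    Hom d (f + g) := by
  intro α hα
  rw [coeff_add] at hα
  by_cases h : coeff α f = 0
  · rw [h, zero_add] at hα; exact hg α hα
  · exact hf α h

lemma Hom.smul {d : ℕ} (a : F) {f : MvPolynomial σ F} (hf : Hom d f) : Hom d (a • f) := by
  intro α hα
  rw [coeff_smul] at hα
  exact hf α (right_ne_zero_of_mul hα)

lemma Hom.sub {d : ℕ} {f g : MvPolynomial σ F} (hf : Hom d f) (hg : Hom d g) :
    Hom d (f - g) := by
  have h1 := hf.add (hg.smul (-1))
  rwa [neg_one_smul, ← sub_eq_add_neg] at h1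

lemma pure_one : Pure o 0 0 (1 : MvPolynomial σ F) := by
  classical
  intro α hα
  rw [coeff_one] at hα
  have h : 0 = α := by
    by_contra h
    rw [if_neg h] at hα
    exact hα rfl
  rw [← h]
  simp

lemma pure_X_pow (r : ℕ) : Pure o r r ((X o : MvPolynomial σ F) ^ r) := by
  induction r with
  | zero => rw [pow_zero]; exact pure_one
  | succ r ih => rw [pow_succ]; exact ih.mul pure_X

omit [Fintype σ] in
/-- A linear combination of monomials. -/
lemma coeff_sum_ne {s : Finset (σ →₀ ℕ)} {φ : (σ →₀ ℕ) → (σ →₀ ℕ)} {a : (σ →₀ ℕ) → F}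
    {β : σ →₀ ℕ} (h : coeff β (∑ α ∈ s, monomial (φ α) (a α)) ≠ 0) : ∃ α ∈ s, φ α = β := by
  classical
  rw [coeff_sum] at h
  obtain ⟨α, hα, h1⟩ := exists_ne_zero_of_sum_ne_zero h
  rw [coeff_monomial] at h1
  refine ⟨α, hα, ?_⟩
  by_contra h2
  rw [if_neg h2] at h1
  exact h1 rfl

/-- The part of even degree in the variable `o`. -/
noncomputable def evP (o : σ) (f : MvPolynomial σ F) : MvPolynomial σ F :=
  ∑ α ∈ f.support with Even (α o), monomial α (coeff α f)

/-- The part of odd degree in the variable `o`, divided by the variable. -/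
noncomputable def odQ (o : σ) (f : MvPolynomial σ F) : MvPolynomial σ F :=
  ∑ α ∈ f.support with ¬ Even (α o), monomial (α - Finsupp.single o 1) (coeff α f)

omit [Fintype σ] in
lemma X_mul_odQ (f : MvPolynomial σ F) :
    X o * odQ o f = ∑ α ∈ f.support with ¬ Even (α o), monomial α (coeff α f) := by
  rw [odQ, mul_sum]
  apply sum_congr rfl
  intro α hα
  rw [mem_filter] at hα
  rw [X, monomial_mul, one_mul, add_tsub_cancel_of_le]
  rw [Finsupp.single_le_iff]
  by_contra h
  apply hα.2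
  have : α o = 0 := by omega
  rw [this]
  exact Even.zero

omit [Fintype σ] in
lemma evP_add_odQ (f : MvPolynomial σ F) : f = evP o f + X o * odQ o f := by
  rw [X_mul_odQ, evP, sum_filter_add_sum_filter_not]
  exact f.as_sum

lemma pure_evP {j : ℕ} {f : MvPolynomial σ F} (hf : Hom j f) : Pure o j 0 (evP o f) := by
  intro β hβ
  obtain ⟨α, hα, rfl⟩ := coeff_sum_ne (φ := id) hβ
  rw [mem_filter, mem_support_iff] at hα
  exact ⟨hf α hα.1, by simpa using hα.2⟩

lemma pure_odP {j : ℕ} {f : MvPolynomial σ F} (hf : Hom j f) : Pure o j 1 (X o * odQ o f) := by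
  rw [X_mul_odQ]
  intro β hβ
  obtain ⟨α, hα, rfl⟩ := coeff_sum_ne (φ := id) hβ
  rw [mem_filter, mem_support_iff] at hα
  refine ⟨hf α hα.1, ?_⟩
  rw [id, Nat.even_add_one]
  exact hα.2

lemma hom_odQ {j : ℕ} {f : MvPolynomial σ F} (hf : Hom (j + 1) f) : Hom j (odQ o f) := by
  intro β hβ
  obtain ⟨α, hα, rfl⟩ := coeff_sum_ne (φ := fun α => α - Finsupp.single o 1) hβ
  rw [mem_filter, mem_support_iff] at hα
  have h1 := hf α hα.1
  have h2 : α = α - Finsupp.single o 1 + Finsupp.single o 1 := by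
    rw [tsub_add_cancel_of_le]
    rw [Finsupp.single_le_iff]
    by_contra h
    apply hα.2
    have : α o = 0 := by omega
    rw [this]
    exact Even.zero
  rw [h2, sum_add_single] at h1
  omega

/-- Orthogonality of the parts. -/
lemma cross {n j : ℕ} {f g : MvPolynomial σ F} (hf : Pure o j 0 f) (hg : Pure o j 1 g) :
    gs κ (f * g * X o ^ (2 * n - 2 * j)) = 0 := by
  apply gs_odd κ o
  intro α hα
  have h := ((hf.mul hg).mul (pure_X_pow (2 * n - 2 * j)) α hα).2
  have h2 : Even (2 * n - 2 * j) := by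
    rw [← Nat.mul_sub]; exact even_two_mul _
  rw [← Nat.not_even_iff_odd]
  intro h3
  have h4 : Even (α o + (2 * n - 2 * j)) := h3.add h2
  rw [show α o + (0 + 1 + (2 * n - 2 * j)) = α o + (2 * n - 2 * j) + 1 by ring,
    Nat.even_add_one] at h
  exact h h4

variable [LinearOrder F] [IsStrictOrderedRing F]

lemma even_pos (ho : 0 < κ o) (hn : ∀ i, i ≠ o → κ i < 0) {n j : ℕ} (hj : j ≤ n)
    {f : MvPolynomial σ F} (hf : Pure o j 0 f) (h0 : f ≠ 0) :
    0 < (-1) ^ j * gs κ (f * f * X o ^ (2 * n - 2 * j)) := by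
  classical
  have h1 := hf.mul (pure_X_pow (F := F) (o := o) (n - j))
  have h2 := h1.gs_pos ho hn (mul_ne_zero h0 (pow_ne_zero _ (X_ne_zero o)))
  have h3 : f * X o ^ (n - j) * (f * X o ^ (n - j)) = f * f * X o ^ (2 * n - 2 * j) := by
    rw [show 2 * n - 2 * j = (n - j) + (n - j) by omega, pow_add]; ring
  have h4 : (-1 : F) ^ (j + (n - j) + (0 + (n - j))) = (-1) ^ j := by
    rw [show j + (n - j) + (0 + (n - j)) = j + 2 * (n - j) by ring, pow_add, pow_mul]
    simp
  rwa [h3, h4] at h2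

lemma odd_pos (ho : 0 < κ o) (hn : ∀ i, i ≠ o → κ i < 0) {n j : ℕ} (hj : j ≤ n)
    {f : MvPolynomial σ F} (hf : Pure o j 1 f) (h0 : f ≠ 0) :
    (-1) ^ j * gs κ (f * f * X o ^ (2 * n - 2 * j)) < 0 := by
  classical
  have h1 := hf.mul (pure_X_pow (F := F) (o := o) (n - j))
  have h2 := h1.gs_pos ho hn (mul_ne_zero h0 (pow_ne_zero _ (X_ne_zero o)))
  have h3 : f * X o ^ (n - j) * (f * X o ^ (n - j)) = f * f * X o ^ (2 * n - 2 * j) := by
    rw [show 2 * n - 2 * j = (n - j) + (n - j) by omega, pow_add]; ring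
  have h4 : (-1 : F) ^ (j + (n - j) + (1 + (n - j))) = -(-1) ^ j := by
    rw [show j + (n - j) + (1 + (n - j)) = j + 2 * (n - j) + 1 by ring, pow_add, pow_add,
      pow_mul]
    simp
  rw [h3, h4] at h2
  linarith

/-- The form is nondegenerate. -/
theorem gs_nd (ho : 0 < κ o) (hn : ∀ i, i ≠ o → κ i < 0) {n j : ℕ} (hj : j ≤ n)
    {f : MvPolynomial σ F} (hf : Hom j f)
    (h : ∀ g, Hom j g → gs κ (f * g * X o ^ (2 * n - 2 * j)) = 0) : f = 0 := by
  set E := evP o f with hE
  set O := X o * odQ o f with hO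
  have hEp : Pure o j 0 E := pure_evP hf
  have hOp : Pure o j 1 O := pure_odP hf
  have hfE : f = E + O := evP_add_odQ f
  have h1 := h (E - O) (hEp.hom.sub hOp.hom)
  have h2 : f * (E - O) * X o ^ (2 * n - 2 * j) =
      E * E * X o ^ (2 * n - 2 * j) - O * O * X o ^ (2 * n - 2 * j) := by
    rw [hfE]; ring
  rw [h2, map_sub] at h1
  have hE0 : E = 0 := by
    by_contra h0
    have h3 := even_pos ho hn hj hEp h0
    by_cases hO0 : O = 0
    · rw [hO0] at h1
      simp only [zero_mul, map_zero, sub_zero] at h1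
      rw [h1, mul_zero] at h3
      exact lt_irrefl _ h3
    · have h4 := odd_pos ho hn hj hOp hO0
      rw [sub_eq_zero] at h1
      rw [h1] at h3
      linarith
  have hO0 : O = 0 := by
    by_contra h0
    have h4 := odd_pos ho hn hj hOp h0
    rw [hE0] at h1
    simp only [zero_mul, map_zero, zero_sub, neg_eq_zero] at h1
    rw [h1, mul_zero] at h4
    exact lt_irrefl _ h4
  rw [hfE, hE0, hO0, add_zero]

/-- **Positivity on primitive polynomials.** -/
theorem gs_prim (ho : 0 < κ o) (hn : ∀ i, i ≠ o → κ i < 0) {n j : ℕ} (hj : j ≤ n)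
    {f : MvPolynomial σ F} (hf : Hom j f)
    (h : ∀ j', j = j' + 1 → ∀ g, Hom j' g →
      gs κ (f * (X o * g) * X o ^ (2 * n - 2 * j)) = 0) (h0 : f ≠ 0) :
    0 < (-1) ^ j * gs κ (f * f * X o ^ (2 * n - 2 * j)) := by
  set E := evP o f with hE
  set O := X o * odQ o f with hO
  have hEp : Pure o j 0 E := pure_evP hf
  have hOp : Pure o j 1 O := pure_odP hf
  have hfE : f = E + O := evP_add_odQ f
  have hO0 : O = 0 := by
    by_contra hO0
    rcases j with _ | j
    · -- in degree zero there is no odd part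
      obtain ⟨α, hα⟩ := ne_zero_iff.1 hO0
      obtain ⟨h1, h2⟩ := hOp α hα
      have h3 : α o ≤ ∑ i, α i := single_le_sum (f := fun i => α i) (fun _ _ => Nat.zero_le _)
        (mem_univ o)
      have h4 : α o = 0 := by omega
      rw [h4] at h2
      exact absurd h2 (by decide)
    · have h1 := h j rfl (odQ o f) (hom_odQ hf)
      rw [← hO] at h1
      have h2 : f * O * X o ^ (2 * n - 2 * (j + 1)) =
          E * O * X o ^ (2 * n - 2 * (j + 1)) + O * O * X o ^ (2 * n - 2 * (j + 1)) := by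
        rw [hfE]; ring
      rw [h2, map_add, cross hEp hOp, zero_add] at h1
      have h4 := odd_pos ho hn hj hOp hO0
      rw [h1, mul_zero] at h4
      exact lt_irrefl _ h4
  rw [hO0, add_zero] at hfE
  rw [hfE] at h0 ⊢
  exact even_pos ho hn hj hEp h0

end Pool.Agent.Y103.Fj
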