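import Pool.Agent.Y103.Fj.Gauss

/-!
# The Gaussian functional of a product as a sum over iterated derivatives
-/

open MvPolynomial Finset

namespace Pool.Agent.Y103.Fj

variable {F : Type*} [Field F] {σ : Type*} [Fintype σ]

/-- The contraction of order `k`. -/
noncomputable def BB (κ : σ → F) : ℕ → MvPolynomial σ F → MvPolynomial σ F → F
  | 0, f, g => gs κ f * gs κ g
  | (k + 1), f, g => ∑ i, κ i * BB κ k (pderiv i f) (pderiv i g)

lemma BB_add (κ : σ → F) (k : ℕ) (f f' g : MvPolynomial σ F) :
    BB κ k (f + f') g = BB κ k f g + BB κ k f' g := by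
  induction k generalizing f f' g with
  | zero => rw [BB, BB, BB, map_add, add_mul]
  | succ k ih =>
    rw [BB, BB, BB, ← sum_add_distrib]
    apply sum_congr rfl
    intro i _
    rw [map_add, ih, mul_add]

lemma BB_smul (κ : σ → F) (k : ℕ) (a : F) (f g : MvPolynomial σ F) :
    BB κ k (a • f) g = a * BB κ k f g := by
  induction k generalizing f g with
  | zero => rw [BB, BB, map_smul, smul_eq_mul, mul_assoc]
  | succ k ih =>
    rw [BB, BB, mul_sum]
    apply sum_congr rfl
    intro i _
    rw [(pderiv i).map_smul, ih, mul_left_comm]

lemma BB_zero (κ : σ → F) (k : ℕ) (g : MvPolynomial σ F) : BB κ k 0 g = 0 := by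
  have := BB_smul κ k 0 0 g
  rwa [zero_smul, zero_mul] at this

variable [DecidableEq σ]

lemma BB_X_mul (κ : σ → F) (j : σ) (k : ℕ) (f g : MvPolynomial σ F) :
    BB κ k (X j * f) g = k * κ j * BB κ (k - 1) f (pderiv j g) +
      κ j * BB κ k (pderiv j f) g := by
  induction k generalizing f g with
  | zero =>
    rw [BB, gs_X_mul]
    simp only [BB, Nat.cast_zero, zero_mul, zero_add]
    ring
  | succ k ih =>
    rw [BB, Nat.add_sub_cancel]
    have h1 : ∀ i, BB κ k (pderiv i (X j * f)) (pderiv i g) =
        (if i = j then BB κ k f (pderiv i g) else 0) +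
          (k * κ j * BB κ (k - 1) (pderiv i f) (pderiv j (pderiv i g)) +
            κ j * BB κ k (pderiv j (pderiv i f)) (pderiv i g)) := by
      intro i
      rw [pderiv_mul, BB_add, ih]
      congr 1
      by_cases hij : i = j
      · subst hij
        rw [pderiv_X_self, one_mul, if_pos rfl]
      · rw [pderiv_X_of_ne (Ne.symm hij), zero_mul, BB_zero, if_neg hij]
    have h2 : ∀ i, pderiv j (pderiv i f) = pderiv i (pderiv j f) := fun i => by
      ext m
      rw [coeff_pderiv, coeff_pderiv, coeff_pderiv, coeff_pderiv, add_right_comm]
      simp only [Finsupp.add_apply]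
      by_cases hij : i = j
      · subst hij; rfl
      · rw [Finsupp.single_eq_of_ne hij, Finsupp.single_eq_of_ne (Ne.symm hij)]
        simp only [add_zero]
        ring
    have h3 : ∀ i, pderiv j (pderiv i g) = pderiv i (pderiv j g) := fun i => by
      ext m
      rw [coeff_pderiv, coeff_pderiv, coeff_pderiv, coeff_pderiv, add_right_comm]
      simp only [Finsupp.add_apply]
      by_cases hij : i = j
      · subst hij; rfl
      · rw [Finsupp.single_eq_of_ne hij, Finsupp.single_eq_of_ne (Ne.symm hij)]
        simp only [add_zero]
        ring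
    rw [sum_congr rfl (fun i _ => by rw [h1 i])]
    simp only [mul_add, sum_add_distrib]
    have h4 : ∑ i, κ i * (if i = j then BB κ k f (pderiv i g) else 0) =
        κ j * BB κ k f (pderiv j g) := by
      rw [sum_eq_single j]
      · rw [if_pos rfl]
      · intro i _ hi; rw [if_neg hi, mul_zero]
      · intro h; exact absurd (mem_univ _) h
    have h5 : ∑ i, κ i * (k * κ j * BB κ (k - 1) (pderiv i f) (pderiv j (pderiv i g))) =
        k * κ j * BB κ k f (pderiv j g) := by
      rcases k with _ | k
      · simp
      · rw [BB, mul_sum]
        apply sum_congr rfl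
        intro i _
        rw [h3, Nat.add_sub_cancel]
        ring
    have h6 : ∑ i, κ i * (κ j * BB κ k (pderiv j (pderiv i f)) (pderiv i g)) =
        κ j * BB κ (k + 1) (pderiv j f) g := by
      rw [BB, mul_sum]
      apply sum_congr rfl
      intro i _
      rw [h2]
      ring
    rw [h4, h5, h6]
    push_cast
    ring

variable [CharZero F]

/-- **The Gaussian functional of a product.** -/
theorem gs_mul (κ : σ → F) (d : ℕ) (f g : MvPolynomial σ F)
    (hf : ∀ α ∈ f.support, ∑ i, α i ≤ d) (N : ℕ) (hN : d ≤ N) :
    gs κ (f * g) = ∑ k ∈ range (N + 1), BB κ k f g / k.factorial := by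
  induction d generalizing f g N with
  | zero =>
    -- constants
    have h1 : f = C (coeff 0 f) := by
      ext α
      rw [coeff_C]
      by_cases hα : 0 = α
      · rw [if_pos hα, hα]
      · rw [if_neg hα]
        by_contra h0
        have h2 := hf α (mem_support_iff.2 h0)
        apply hα
        ext i
        have h3 : α i ≤ ∑ i, α i := single_le_sum (f := fun i => α i) (fun _ _ => Nat.zero_le _)
          (mem_univ i)
        rw [Finsupp.zero_apply]
        omega
    rw [h1, gs_C_mul, sum_range_succ', sum_eq_zero]
    · rw [BB, Nat.factorial_zero, Nat.cast_one, div_one, zero_add]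
      congr 1
      rw [← mul_one (C (coeff 0 f)), gs_C_mul, gs_one, mul_one]
    · intro k _
      have : BB κ (k + 1) (C (coeff 0 f)) g = 0 := by
        rw [BB]
        apply sum_eq_zero
        intro i _
        rw [pderiv_C, BB_zero, mul_zero]
      rw [this, zero_div]
  | succ d ih =>
    -- linearity
    have hlin : ∀ (s : Finset (σ →₀ ℕ)) (a : (σ →₀ ℕ) → F),
        (∀ α ∈ s, gs κ (monomial α (a α) * g) =
          ∑ k ∈ range (N + 1), BB κ k (monomial α (a α)) g / k.factorial) →
        gs κ ((∑ α ∈ s, monomial α (a α)) * g) =
          ∑ k ∈ range (N + 1), BB κ k (∑ α ∈ s, monomial α (a α)) g / k.factorial := by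
      intro s a
      induction s using Finset.induction_on with
      | empty =>
        intro _
        rw [sum_empty, zero_mul, map_zero]
        symm
        apply sum_eq_zero
        intro k _
        rw [BB_zero, zero_div]
      | insert α s hα ihs =>
        intro h
        rw [sum_insert hα, add_mul, map_add, h α (mem_insert_self _ _),
          ihs (fun β hβ => h β (mem_insert_of_mem hβ)), ← sum_add_distrib]
        apply sum_congr rfl
        intro k _
        rw [BB_add, add_div]
    rw [f.as_sum]
    apply hlin
    intro α hα
    have hαd := hf α hα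
    by_cases hαd' : ∑ i, α i ≤ d
    · apply ih _ _ _ _ (by omega)
      intro β hβ
      have := support_monomial_subset hβ
      rw [mem_singleton] at this
      rw [this]
      exact hαd'
    · -- a variable occurs
      obtain ⟨i, hi⟩ : ∃ i, α i ≠ 0 := by
        by_contra h0
        push Not at h0
        apply hαd'
        rw [sum_eq_zero (fun i _ => h0 i)]
        omega
      set β := α - Finsupp.single i 1 with hβ
      have hαβ : α = Finsupp.single i 1 + β := by
        rw [hβ, add_tsub_cancel_of_le]
        rw [Finsupp.single_le_iff]
        omega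
      have hmon : monomial α (coeff α f) = X i * monomial β (coeff α f) := by
        rw [X, monomial_mul, one_mul, ← hαβ]
      have hβs : ∑ l, β l ≤ d := by
        have h1 : ∑ l, α l = ∑ l, (Finsupp.single i 1 : σ →₀ ℕ) l + ∑ l, β l := by
          rw [← sum_add_distrib]
          apply sum_congr rfl
          intro l _
          conv_lhs => rw [hαβ]
          rw [Finsupp.add_apply]
        have h2 : ∑ l, (Finsupp.single i 1 : σ →₀ ℕ) l = 1 := by
          rw [sum_eq_single i]
          · exact Finsupp.single_eq_same
          · intro l _ hl; exact Finsupp.single_eq_of_ne hl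
          · intro h; exact absurd (mem_univ _) h
        omega
      have hsup : ∀ γ ∈ (monomial β (coeff α f)).support, ∑ l, γ l ≤ d := by
        intro γ hγ
        have := support_monomial_subset hγ
        rw [mem_singleton] at this
        rw [this]
        exact hβs
      have hsup' : ∀ γ ∈ (pderiv i (monomial β (coeff α f))).support, ∑ l, γ l ≤ d := by
        intro γ hγ
        rw [pderiv_monomial] at hγ
        have := support_monomial_subset hγ
        rw [mem_singleton] at this
        rw [this]
        refine le_trans (sum_le_sum ?_) hβs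
        intro l _
        rw [Finsupp.tsub_apply]
        exact Nat.sub_le _ _
      obtain ⟨M, rfl⟩ : ∃ M, N = M + 1 := ⟨N - 1, by omega⟩
      rw [hmon, mul_assoc, gs_X_mul, pderiv_mul, map_add,
        ih _ _ hsup' (M + 1) (by omega), ih _ _ hsup M (by omega)]
      have h6 : ∀ k ∈ range (M + 1 + 1), BB κ k (X i * monomial β (coeff α f)) g / k.factorial =
          (k : F) * κ i * BB κ (k - 1) (monomial β (coeff α f)) (pderiv i g) / k.factorial +
          κ i * BB κ k (pderiv i (monomial β (coeff α f))) g / k.factorial := by
        intro k _
        rw [BB_X_mul, add_div]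
      rw [sum_congr rfl h6, sum_add_distrib]
      have h7 : ∑ k ∈ range (M + 1 + 1), (k : F) * κ i *
          BB κ (k - 1) (monomial β (coeff α f)) (pderiv i g) / k.factorial =
          κ i * ∑ k ∈ range (M + 1), BB κ k (monomial β (coeff α f)) (pderiv i g) /
            k.factorial := by
        rw [sum_range_succ', mul_sum]
        simp only [Nat.cast_zero, zero_mul, zero_div, add_zero]
        apply sum_congr rfl
        intro k _
        rw [Nat.add_sub_cancel, Nat.factorial_succ]
        have h8 : ((k + 1 : ℕ) : F) ≠ 0 := by exact_mod_cast Nat.succ_ne_zero k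
        have h9 : (k.factorial : F) ≠ 0 := by exact_mod_cast Nat.factorial_ne_zero k
        push_cast at h8 ⊢
        field_simp
      have h8 : ∑ k ∈ range (M + 1 + 1), κ i * BB κ k (pderiv i (monomial β (coeff α f))) g /
          k.factorial = κ i * ∑ k ∈ range (M + 1 + 1),
            BB κ k (pderiv i (monomial β (coeff α f))) g / k.factorial := by
        rw [mul_sum]
        apply sum_congr rfl
        intro k _
        rw [mul_div_assoc]
      rw [h7, h8]
      ring

end Pool.Agent.Y103.Fj
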