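import Pool.Agent.Y103.Fj.Abs
import Pool.Agent.Y103.HRWeil

/-!
# The Fujiki relation and the standard conjecture of Hodge type
-/

open CategoryTheory AlgebraicGeometry Submodule

universe u v

namespace Pool.Agent.Y103.Fj

open Pool.Agent.H914 Pool.Agent.H914.VarClass Pool.Agent.H914.VarClass.Obj
  Pool.Agent.H914.WeilCohomology Pool.Agent.H281R3.HT Pool.Agent.W552 Pool.Agent.Y103

variable {k : Type u} [Field k] {𝒱 : VarClass k} {ops : CycleOps 𝒱}
  {W : WeilCohomology.{u, v} ops} {X : 𝒱.Obj} {D : X.Cycles}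

/-- The center of the cohomology algebra. -/
abbrev Cen (W : WeilCohomology.{u, v} ops) (X : 𝒱.Obj) : Subalgebra W.K (W.H X) :=
  Subalgebra.center W.K (W.H X)

/-- The center as an algebra over the rational numbers. -/
@[reducible] noncomputable def ratAlg (W : WeilCohomology.{u, v} ops) (X : 𝒱.Obj) :
    Algebra ℚ (Cen W X) := Algebra.compHom (Cen W X) (algebraMap ℚ W.K)

lemma ratTower (W : WeilCohomology.{u, v} ops) (X : 𝒱.Obj) :
    letI := ratAlg W X
    IsScalarTower ℚ W.K (Cen W X) := by
  let _ := ratAlg W X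
  exact IsScalarTower.of_algebraMap_eq (fun _ => rfl)

lemma rat_smul (a : ℚ) (x : Cen W X) :
    letI := ratAlg W X
    a • x = (a : W.K) • x := by
  let _ := ratAlg W X
  have := ratTower W X
  rw [← algebraMap_smul W.K a x]
  rfl

/-- The trace on the center. -/
noncomputable def trZ (W : WeilCohomology.{u, v} ops) (X : 𝒱.Obj) : Cen W X →ₗ[W.K] W.K :=
  W.tr X ∘ₗ (Cen W X).val.toLinearMap

lemma trZ_apply (x : Cen W X) : trZ W X x = W.tr X (x : W.H X) := rfl

/-- The central element given by an algebraic class. -/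
noncomputable def toCen {j : ℕ} {x : W.H X} (hx : x ∈ algClasses W X j) : Cen W X :=
  ⟨x, Subalgebra.mem_center_iff.2 (fun b => (alg_even_comm hx b).symm)⟩

variable {σ : Type} [Fintype σ]

section Fam

variable {e : σ → Cen W X} (he : ∀ i, (e i : W.H X) ∈ algClasses W X 1)

include he

/-- Values of homogeneous polynomials with rational coefficients are algebraic classes. -/
lemma aeval_alg {j : ℕ} {f : MvPolynomial σ ℚ} (hf : Hom j f) :
    letI := ratAlg W X
    ((MvPolynomial.aeval e f : Cen W X) : W.H X) ∈ algClasses W X j := by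
  classical
  let _ := ratAlg W X
  have key : ∀ j : ℕ, ∀ α : σ →₀ ℕ, ∑ i, α i = j → ∀ a : ℚ,
      ((MvPolynomial.aeval e (MvPolynomial.monomial α a) : Cen W X) : W.H X) ∈
        algClasses W X j := by
    intro j
    induction j with
    | zero =>
      intro α hα a
      have h1 : α = 0 := by
        ext i
        have := Finset.sum_eq_zero_iff.1 hα i (Finset.mem_univ i)
        simpa using this
      rw [h1, ← MvPolynomial.C_apply, MvPolynomial.aeval_C, Algebra.algebraMap_eq_smul_one,
        rat_smul]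
      exact alg_smul a alg_one
    | succ j ih =>
      intro α hα a
      obtain ⟨i, hi⟩ : ∃ i, α i ≠ 0 := by
        by_contra h0
        push Not at h0
        rw [Finset.sum_eq_zero (fun i _ => h0 i)] at hα
        omega
      set β := α - Finsupp.single i 1 with hβ
      have hαβ : α = β + Finsupp.single i 1 := by
        rw [hβ, tsub_add_cancel_of_le (Finsupp.single_le_iff.2 (by omega))]
      have hβs : ∑ l, β l = j := by
        have := sum_add_single β i
        rw [← hαβ, hα] at this
        omega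
      have h5 : MvPolynomial.monomial α a = MvPolynomial.monomial β a * MvPolynomial.X i := by
        rw [MvPolynomial.X, MvPolynomial.monomial_mul, mul_one, hαβ]
      rw [h5, map_mul, MvPolynomial.aeval_X]
      exact alg_mul (ih β hβs a) (he i)
  rw [f.as_sum, map_sum]
  have h1 : ∀ s ⊆ f.support, ((∑ α ∈ s, MvPolynomial.aeval e
      (MvPolynomial.monomial α (MvPolynomial.coeff α f)) : Cen W X) : W.H X) ∈
        algClasses W X j := by
    intro s
    induction s using Finset.induction_on with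
    | empty => intro _; rw [Finset.sum_empty]; exact alg_zero j
    | insert α s hα ih =>
      intro hs
      rw [Finset.sum_insert hα]
      exact alg_add (key j α (hf α (MvPolynomial.mem_support_iff.1
        (hs (Finset.mem_insert_self _ _)))) _) (ih (fun β hβ => hs (Finset.mem_insert_of_mem hβ)))
  exact h1 _ subset_rfl

/-- Products of divisor classes. -/
lemma monomial_aeval (hgen : letI := ratAlg W X
    ∀ a ∈ algClasses W X 1, ∃ f : MvPolynomial σ ℚ, Hom 1 f ∧
      ((MvPolynomial.aeval e f : Cen W X) : W.H X) = a) {j : ℕ} {x : W.H X}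
    (hx : IsMonomial (algClasses W X) 1 j x) :
    letI := ratAlg W X
    ∃ f : MvPolynomial σ ℚ, Hom j f ∧ ((MvPolynomial.aeval e f : Cen W X) : W.H X) = x := by
  let _ := ratAlg W X
  induction hx with
  | one =>
    refine ⟨1, ?_, by rw [map_one]; rfl⟩
    intro α hα
    classical
    rw [MvPolynomial.coeff_one] at hα
    have h : 0 = α := by
      by_contra h
      rw [if_neg h] at hα
      exact hα rfl
    rw [← h]
    simp
  | mul h1 h2 h3 _ ih =>
    obtain rfl : _ = 1 := le_antisymm h2 h1
    obtain ⟨f, hf, rfl⟩ := hgen _ h3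
    obtain ⟨g, hg, rfl⟩ := ih
    exact ⟨f * g, hf.mul hg, by rw [map_mul]; rfl⟩

/-- **The standard conjectures for products of divisor classes, from a Fujiki relation.** -/
theorem std_of_fujiki {n : ℕ} (hn : X.dim = 2 * n) (hD : X.IsCyc 1 D) {o : σ} {κ : σ → ℚ}
    {c : ℚ} (ho : (e o : W.H X) = W.cl X D)
    (H : letI := ratAlg W X
      IsFujiki n (trZ W X) e o κ c)
    (hgen : letI := ratAlg W X
    ∀ a ∈ algClasses W X 1, ∃ f : MvPolynomial σ ℚ, Hom 1 f ∧
      ((MvPolynomial.aeval e f : Cen W X) : W.H X) = a) :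
    StdFor W X D (InRing W.K (algClasses W X) 1 n) := by
  let _ := ratAlg W X
  have := ratTower W X
  have hR : ∀ i, algClasses W X i ⊆ algClasses W X i := fun i => subset_rfl
  -- elements of the ring
  have hlift : ∀ {j : ℕ} {y : W.H X}, y ∈ genRing W.K (algClasses W X) 1 j →
      ∃ x ∈ span W.K {y | ∃ f : MvPolynomial σ ℚ, Hom j f ∧ y = MvPolynomial.aeval e f},
        ((x : Cen W X) : W.H X) = y := by
    intro j y hy
    induction hy using span_induction with
    | mem y hy =>
      obtain ⟨f, hf, rfl⟩ := monomial_aeval he hgen hy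
      exact ⟨_, subset_span ⟨f, hf, rfl⟩, rfl⟩
    | zero => exact ⟨0, zero_mem _, rfl⟩
    | add a b _ _ h1 h2 =>
      obtain ⟨x, hx, rfl⟩ := h1
      obtain ⟨y, hy, rfl⟩ := h2
      exact ⟨x + y, add_mem hx hy, rfl⟩
    | smul s a _ h1 =>
      obtain ⟨x, hx, rfl⟩ := h1
      exact ⟨s • x, smul_mem _ _ hx, rfl⟩
  have hdeg : ∀ {i j : ℕ} {z : X.Cycles}, X.IsCyc i z →
      W.cl X z ∈ genRing W.K (algClasses W X) 1 j → W.cl X z ≠ 0 → i = j := by
    intro i j z hz h h0
    by_contra hij
    apply h0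
    have h1 := W.cl_mem hz
    have h2 := genRing_gr hR h
    have h3 := proj_same (W.isInternal X) h1
    have h4 := proj_ne (W.isInternal X) (j := 2 * i) h2 (by omega)
    rw [← h3, h4]
  -- rationality
  have hrat : ∀ {j : ℕ} {z : X.Cycles}, X.IsCyc j z → j ≤ n → ∀ f : MvPolynomial σ ℚ,
      Hom j f → ∃ w', X.IsCyc (X.dim - j) w' ∧
        W.cl X z * ((MvPolynomial.aeval e f : Cen W X) : W.H X) * W.cl X D ^ (2 * n - 2 * j) =
        W.cl X z * W.cl X w' := by
    intro j z hz hj f hf
    obtain ⟨w₀, hw₀, hw₁⟩ := alg_cycle (aeval_alg he hf)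
    refine ⟨divPow ops D (2 * n - 2 * j) w₀, ?_, ?_⟩
    · have := divPow_mem (ops := ops) hD (2 * n - 2 * j) hw₀
      rwa [show j + (2 * n - 2 * j) = X.dim - j by omega] at this
    · rw [cl_divPow, mulLeft_pow_apply', mul_assoc, hw₁, ← hw₁, W.even_comm (W.cl_mem hw₀)]
  constructor
  · rintro j hj z hz ⟨j', -, hj'⟩ hp h0
    obtain rfl := hdeg hz hj' h0
    rw [cl_divPow, mulLeft_pow_apply'] at hp
    obtain ⟨x, hx, hxz⟩ := hlift hj'
    have hjn : j ≤ n := by omega
    obtain ⟨r, hr, h1⟩ := H.prim_pos hjn hx (by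
      intro f hf
      obtain ⟨w', hw', h2⟩ := hrat hz hjn f hf
      refine ⟨X.V.degCycle (ops.mul z w'), ?_⟩
      rw [trZ_apply]
      change W.tr X ((x : W.H X) * _ * (e o : W.H X) ^ (2 * n - 2 * j)) = _
      rw [hxz, ho, h2, deg_eq hz hw' (by omega)]
      rfl) (by
      intro j₁ hj₁ f hf
      rw [trZ_apply]
      change W.tr X ((x : W.H X) * ((e o : W.H X) * _) * (e o : W.H X) ^ (2 * n - 2 * j)) = 0
      rw [hxz, ho]
      have h3 : W.cl X D * ((MvPolynomial.aeval e f : Cen W X) : W.H X) *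
          W.cl X D ^ (2 * n - 2 * j) = W.cl X D ^ (X.dim - 2 * j + 1) *
            ((MvPolynomial.aeval e f : Cen W X) : W.H X) := by
        rw [mul_assoc, ← alg_even_comm (pow_alg (W := W) hD (2 * n - 2 * j)), ← mul_assoc,
          ← pow_succ', hn]
      rw [mul_assoc, h3, ← mul_assoc, ← alg_even_comm (pow_alg (W := W) hD
        (X.dim - 2 * j + 1)), hp, zero_mul, map_zero]) (by
      intro h2
      apply h0
      rw [← hxz, h2]
      rfl)
    have h4 := deg_eq (W := W) hz (divPow_mem (ops := ops) hD (X.dim - 2 * j) hz) (by omega)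
    rw [cl_divPow, mulLeft_pow_apply'] at h4
    have h5 : W.cl X z * W.cl X z * W.cl X D ^ (X.dim - 2 * j) =
        W.cl X z * (W.cl X D ^ (X.dim - 2 * j) * W.cl X z) := by
      rw [mul_assoc, W.even_comm (W.cl_mem hz) (W.cl X D ^ (X.dim - 2 * j))]
    rw [trZ_apply] at h1
    change (-1) ^ j * W.tr X ((x : W.H X) * (x : W.H X) * (e o : W.H X) ^ (2 * n - 2 * j)) =
      _ at h1
    rw [hxz, ho, ← hn, h5, h4] at h1
    have h6 : ((-1 : ℚ) ^ j * X.V.degCycle (ops.mul z (divPow ops D (X.dim - 2 * j) z))) = r := by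
      have h7 : (((-1 : ℚ) ^ j * X.V.degCycle (ops.mul z (divPow ops D (X.dim - 2 * j) z)) :
          ℚ) : W.K) = ((r : ℚ) : W.K) := by
        push_cast
        exact h1
      exact_mod_cast h7
    rw [h6]
    exact hr
  · rintro j hj z hz ⟨j', hj2, hj'⟩ h
    by_contra h0
    obtain rfl := hdeg hz hj' h0
    obtain ⟨x, hx, hxz⟩ := hlift hj'
    apply h0
    have h1 : x = 0 := by
      apply H.nd hj2 hx
      intro f hf
      obtain ⟨w', hw', h2⟩ := hrat hz hj2 f hf
      rw [trZ_apply]
      change W.tr X ((x : W.H X) * _ * (e o : W.H X) ^ (2 * n - 2 * j)) = _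
      rw [hxz, ho, h2, deg_eq hz hw' (by omega), h w' hw']
      simp
    rw [← hxz, h1]
    rfl

end Fam

end Pool.Agent.Y103.Fj
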